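import Mathlib
/-!
# Numbers with base 4 digits 0 and 1
-/

set_option autoImplicit false

open Finset

namespace Pool.Agent.Y940.HB

/-- `∑ b_i 2^i ↦ ∑ b_i 4^i` -/
def d (x : ℕ) : ℕ := if h : x = 0 then 0 else 4 * d (x / 2) + x % 2
decreasing_by omega

theorem d_zero : d 0 = 0 := by rw [d]; simp

theorem d_two_mul_add (x b : ℕ) (hb : b < 2) : d (2 * x + b) = 4 * d x + b := by
  by_cases h : 2 * x + b = 0
  · have h1 : x = 0 := by omega
    have h2 : b = 0 := by omega
    subst h1 h2
    simp [d_zero]
  · rw [d, dif_neg h]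
    have h1 : (2 * x + b) / 2 = x := by omega
    have h2 : (2 * x + b) % 2 = b := by omega
    rw [h1, h2]

theorem d_eq (x : ℕ) : d x = 4 * d (x / 2) + x % 2 := by
  have := d_two_mul_add (x / 2) (x % 2) (Nat.mod_lt _ (by norm_num))
  rwa [Nat.div_add_mod] at this

theorem d_add (s : ℕ) : ∀ t u : ℕ, t < 2 ^ s → d (t + 2 ^ s * u) = d t + 4 ^ s * d u := by
  induction s with
  | zero =>
    intro t u ht
    have : t = 0 := by simpa using ht
    subst this
    simp [d_zero]
  | succ s ih =>
    intro t u ht
    have h1 : t / 2 < 2 ^ s := by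
      rw [pow_succ] at ht
      omega
    have h2 := ih (t / 2) u h1
    rw [d_eq (t + 2 ^ (s + 1) * u), d_eq t]
    have h3 : (t + 2 ^ (s + 1) * u) / 2 = t / 2 + 2 ^ s * u := by
      rw [pow_succ]
      have : t + 2 ^ s * 2 * u = t + 2 * (2 ^ s * u) := by ring
      rw [this]
      omega
    have h4 : (t + 2 ^ (s + 1) * u) % 2 = t % 2 := by
      rw [pow_succ]
      have : t + 2 ^ s * 2 * u = t + 2 * (2 ^ s * u) := by ring
      rw [this]
      omega
    rw [h3, h4, h2]
    ring

/-- `3 d(x) < 4 ^ s` for `x < 2 ^ s` -/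
theorem three_d_lt (s : ℕ) : ∀ x : ℕ, x < 2 ^ s → 3 * d x < 4 ^ s := by
  induction s with
  | zero =>
    intro x hx
    have : x = 0 := by simpa using hx
    subst this
    simp [d_zero]
  | succ s ih =>
    intro x hx
    have h1 := ih (x / 2) (by rw [pow_succ] at hx; omega)
    rw [d_eq x, pow_succ]
    omega

theorem sq_le (x : ℕ) : x ^ 2 + 2 * x ≤ 3 * d x := by
  induction x using Nat.strong_induction_on with
  | _ x ih =>
    by_cases h : x = 0
    · subst h; simp [d_zero]
    · have h1 := ih (x / 2) (by omega)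
      rw [d_eq x]
      set y := x / 2 with hy
      set b := x % 2 with hb
      have hb2 : b < 2 := Nat.mod_lt _ (by norm_num)
      have hx : x = 2 * y + b := by omega
      rw [hx]
      interval_cases b
      · nlinarith
      · nlinarith

theorem le_d (x : ℕ) : x ≤ d x := by
  have := sq_le x
  rcases Nat.eq_zero_or_pos x with h | h
  · subst h; exact Nat.zero_le _
  · nlinarith

theorem lt_of_d_lt (k x : ℕ) (h : d x < 4 ^ k) : x < 2 ^ k := by
  by_contra hcon
  push Not at hcon
  have h1 := d_add k (x % 2 ^ k) (x / 2 ^ k) (Nat.mod_lt _ (by positivity))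
  rw [Nat.mod_add_div] at h1
  have h2 : 1 ≤ x / 2 ^ k := by
    rw [Nat.one_le_div_iff (by positivity)]
    exact hcon
  have h3 := le_d (x / 2 ^ k)
  have h4 : 4 ^ k * 1 ≤ 4 ^ k * d (x / 2 ^ k) := Nat.mul_le_mul_left _ (h2.trans h3)
  omega

/-- existence of the decomposition -/
theorem exists_split (R : ℕ) : ∃ x y : ℕ, d x + 2 * d y = R := by
  induction R using Nat.strong_induction_on with
  | _ R ih =>
    by_cases h : R = 0
    · exact ⟨0, 0, by simp [d_zero, h]⟩
    · obtain ⟨x, y, hxy⟩ := ih (R / 4) (by omega)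
      refine ⟨2 * x + R % 2, 2 * y + (R / 2) % 2, ?_⟩
      rw [d_two_mul_add _ _ (Nat.mod_lt _ (by norm_num)),
        d_two_mul_add _ _ (Nat.mod_lt _ (by norm_num))]
      omega

/-- uniqueness of the decomposition -/
theorem split_unique' (R : ℕ) : ∀ x y x' y' : ℕ, d x + 2 * d y = R → d x' + 2 * d y' = R →
    x = x' ∧ y = y' := by
  induction R using Nat.strong_induction_on with
  | _ R ih =>
    intro x y x' y' h h'
    by_cases hR : R = 0
    · have h1 := le_d x
      have h2 := le_d y
      have h3 := le_d x'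
      have h4 := le_d y'
      omega
    · rw [d_eq x, d_eq y] at h
      rw [d_eq x', d_eq y'] at h'
      have := ih (R / 4) (by omega) (x / 2) (y / 2) (x' / 2) (y' / 2) (by omega) (by omega)
      omega

theorem split_unique {x y x' y' : ℕ} (h : d x + 2 * d y = d x' + 2 * d y') :
    x = x' ∧ y = y' := split_unique' _ x y x' y' h rfl

theorem d_inj {x x' : ℕ} (h : d x = d x') : x = x' :=
  (split_unique (x := x) (y := 0) (x' := x') (y' := 0) (by omega)).1

/-- numbers below `4 ^ k` with digits `0, 1, 2` -/
def T : ℕ → Finset ℕ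
  | 0 => {0}
  | k + 1 => (T k ×ˢ range 3).image (fun q => 4 * q.1 + q.2)

theorem card_T (k : ℕ) : (T k).card ≤ 3 ^ k := by
  induction k with
  | zero => simp [T]
  | succ k ih =>
    rw [T]
    refine card_image_le.trans ?_
    rw [card_product, card_range, pow_succ]
    exact Nat.mul_le_mul_right _ ih

theorem mem_T (k : ℕ) : ∀ u w : ℕ, d u + d w < 4 ^ k → d u + d w ∈ T k := by
  induction k with
  | zero =>
    intro u w h
    have : d u + d w = 0 := by simpa using h
    rw [this]
    simp [T]
  | succ k ih =>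
    intro u w h
    rw [pow_succ] at h
    have h1 := d_eq u
    have h2 := d_eq w
    have h3 := ih (u / 2) (w / 2) (by omega)
    rw [T, mem_image]
    refine ⟨(d (u / 2) + d (w / 2), u % 2 + w % 2), ?_, ?_⟩
    · rw [mem_product]
      exact ⟨h3, by simp only [mem_range]; omega⟩
    · simp only
      omega

/-- coefficients -/
def co (c : Bool) : ℕ := if c then 1 else 2

@[simp] theorem co_true : co true = 1 := rfl
@[simp] theorem co_false : co false = 2 := rfl

theorem co_pos (c : Bool) : 1 ≤ co c := by cases c <;> simp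

theorem co_split_unique {c : Bool} {x y x' y' : ℕ}
    (h : co c * d x + co (!c) * d y = co c * d x' + co (!c) * d y') : x = x' ∧ y = y' := by
  cases c
  · simp only [co_false, Bool.not_false, co_true] at h
    have := split_unique (x := y) (y := x) (x' := y') (y' := x') (by omega)
    exact this.symm
  · simp only [co_true, Bool.not_true, co_false] at h
    exact split_unique (by omega)

theorem co_lt {c : Bool} {s x y : ℕ} (hx : x < 2 ^ s) (hy : y < 2 ^ s) :
    co c * d x + co (!c) * d y < 4 ^ s := by
  have h1 := three_d_lt s x hx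
  have h2 := three_d_lt s y hy
  cases c <;> simp <;> omega

end Pool.Agent.Y940.HB
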