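import Mathlib
import Pool.Agent.Y940.HB.Digits
/-!
# The hashing lemma
-/

set_option autoImplicit false

open Finset

namespace Pool.Agent.Y940.HB

/-- number of ordered pairs with prescribed sum modulo `M` -/
def Z (P : Finset ℕ) (M n : ℕ) : ℕ :=
  ((P ×ˢ P).filter (fun q => (q.1 + q.2) % M = n % M)).card

/-- representations inside a block -/
def rho (c : Bool) (M s n x y a b : ℕ) : ℕ :=
  ((range (2 ^ s) ×ˢ range (2 ^ s)).filter (fun t =>
    ((x + M * (co c * d t.1 + co (!c) * d a)) + (y + M * (co c * d t.2 + co (!c) * d b)))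
      % (M * 4 ^ s) = n % (M * 4 ^ s))).card

theorem rho_eq_zero {c : Bool} {M s n x y a b : ℕ} (h : (x + y) % M ≠ n % M) :
    rho c M s n x y a b = 0 := by
  rw [rho, card_eq_zero, filter_eq_empty_iff]
  rintro ⟨t, t'⟩ - h1
  apply h
  have h2 : ((x + M * (co c * d t + co (!c) * d a)) + (y + M * (co c * d t' + co (!c) * d b)))
      % M = n % M := Nat.ModEq.of_mul_right _ h1
  rw [← h2]
  have : x + M * (co c * d t + co (!c) * d a) + (y + M * (co c * d t' + co (!c) * d b))
      = (x + y) + M * ((co c * d t + co (!c) * d a) + (co c * d t' + co (!c) * d b)) := by ring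
  rw [this, Nat.add_mul_mod_self_left]

theorem rho_symm (c : Bool) (M s n x y a b : ℕ) :
    rho c M s n x y a b = rho c M s n y x b a := by
  unfold rho
  refine card_bij' (fun t _ => t.swap) (fun t _ => t.swap) ?_ ?_ (fun t _ => by simp)
    (fun t _ => by simp)
  · rintro ⟨t, t'⟩ h
    simp only [mem_filter, mem_product, Prod.swap] at h ⊢
    refine ⟨⟨h.1.2, h.1.1⟩, ?_⟩
    rw [add_comm]
    exact h.2
  · rintro ⟨t, t'⟩ h
    simp only [mem_filter, mem_product, Prod.swap] at h ⊢
    refine ⟨⟨h.1.2, h.1.1⟩, ?_⟩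
    rw [add_comm]
    exact h.2

theorem sum_rho_le (c : Bool) (M s n x y a : ℕ) (hM : 0 < M) :
    ∑ b ∈ range (2 ^ s), rho c M s n x y a b ≤ 2 ^ s := by
  have h1 : ∑ b ∈ range (2 ^ s), rho c M s n x y a b
      = ((range (2 ^ s) ×ˢ (range (2 ^ s) ×ˢ range (2 ^ s))).filter (fun q =>
        ((x + M * (co c * d q.2.1 + co (!c) * d a))
          + (y + M * (co c * d q.2.2 + co (!c) * d q.1)))
          % (M * 4 ^ s) = n % (M * 4 ^ s))).card := by
    rw [card_filter, sum_product]
    apply sum_congr rfl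
    intro b _
    rw [rho, card_filter]
  rw [h1]
  calc _ ≤ (range (2 ^ s)).card := by
        apply card_le_card_of_injOn (fun q => q.2.1)
        · rintro ⟨b, t, t'⟩ h
          simp only [coe_filter, mem_product, Set.mem_ofPred_eq] at h
          simpa using h.1.2.1
        · rintro ⟨b, t, t'⟩ h ⟨b2, t2, t2'⟩ h2 heq
          simp only [coe_filter, mem_product, Set.mem_ofPred_eq, mem_range] at h h2
          simp only at heq
          subst heq
          have h3 : (x + M * (co c * d t + co (!c) * d a)) + (y + M * (co c * d t' + co (!c) * d b))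
              ≡ (x + M * (co c * d t + co (!c) * d a)) + (y + M * (co c * d t2' + co (!c) * d b2))
              [MOD M * 4 ^ s] := h.2.trans h2.2.symm
          have h4 := Nat.ModEq.add_left_cancel' _ (Nat.ModEq.add_left_cancel' _ h3)
          have h5 := Nat.ModEq.mul_left_cancel' hM.ne' h4
          have h6 : co c * d t' + co (!c) * d b = co c * d t2' + co (!c) * d b2 :=
            Nat.ModEq.eq_of_lt_of_lt h5 (co_lt h.1.2.2 h.1.1) (co_lt h2.1.2.2 h2.1.1)
          have h7 := co_split_unique h6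
          simp [h7.1, h7.2]
    _ = 2 ^ s := card_range _

theorem rho_le (c : Bool) (M s n x y a b : ℕ) (hM : 0 < M) (hb : b < 2 ^ s) :
    rho c M s n x y a b ≤ 2 ^ s :=
  (single_le_sum (f := fun b => rho c M s n x y a b) (fun _ _ => Nat.zero_le _)
    (mem_range.2 hb)).trans (sum_rho_le c M s n x y a hM)

/-- sums over pairs `x < y` -/
noncomputable def pairSum (S : Finset ℕ) (F : ℕ → ℕ → ℝ) : ℝ :=
  ∑ y ∈ S, ∑ x ∈ S.filter (· < y), F x y

theorem pairSum_insert {S : Finset ℕ} {p : ℕ} (hp : ∀ x ∈ S, x < p) (F : ℕ → ℕ → ℝ) :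
    pairSum (insert p S) F = pairSum S F + ∑ x ∈ S, F x p := by
  have hpS : p ∉ S := fun h => lt_irrefl _ (hp p h)
  unfold pairSum
  rw [sum_insert hpS, add_comm]
  congr 1
  · apply sum_congr rfl
    intro y hy
    apply sum_congr _ (fun _ _ => rfl)
    ext x
    simp only [mem_filter, mem_insert]
    constructor
    · rintro ⟨h1 | h1, h2⟩
      · subst h1
        exact absurd h2 (not_lt.2 (hp y hy).le)
      · exact ⟨h1, h2⟩
    · rintro ⟨h1, h2⟩
      exact ⟨Or.inr h1, h2⟩
  · apply sum_congr _ (fun _ _ => rfl)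
    ext x
    simp only [mem_filter, mem_insert]
    constructor
    · rintro ⟨h1 | h1, h2⟩
      · omega
      · exact h1
    · intro h
      exact ⟨Or.inr h, hp x h⟩

theorem sum_sum_eq (S : Finset ℕ) (F : ℕ → ℕ → ℝ) (hF : ∀ x y, F x y = F y x) :
    ∑ x ∈ S, ∑ y ∈ S, F x y = 2 * pairSum S F + ∑ x ∈ S, F x x := by
  induction S using Finset.induction_on_max with
  | empty => simp [pairSum]
  | insert p S hp ih =>
    have hpS : p ∉ S := fun h => lt_irrefl _ (hp p h)
    rw [pairSum_insert hp, sum_insert hpS, sum_insert hpS, sum_insert hpS]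
    have h1 : ∑ x ∈ S, ∑ y ∈ insert p S, F x y = ∑ x ∈ S, F x p + ∑ x ∈ S, ∑ y ∈ S, F x y := by
      rw [← sum_add_distrib]
      apply sum_congr rfl
      intro x _
      rw [sum_insert hpS]
    have h2 : ∑ x ∈ S, F p x = ∑ x ∈ S, F x p := sum_congr rfl (fun x _ => hF p x)
    rw [h1, h2, ih]
    ring

theorem exp_le_quad {z : ℝ} (h0 : 0 ≤ z) (h1 : z ≤ 1) : Real.exp z ≤ 1 + z + z ^ 2 := by
  have := Real.abs_exp_sub_one_sub_id_le (x := z) (by rw [abs_of_nonneg h0]; exact h1)
  have := (abs_le.1 this).2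
  linarith

theorem avg_one (c : Bool) (M s n x y a : ℕ) (hM : 0 < M) (l : ℝ) (hl : 0 ≤ l)
    (hl2 : 2 * l * 2 ^ s ≤ 1) :
    ∑ b ∈ range (2 ^ s), Real.exp (2 * l * (rho c M s n x y a b : ℝ))
      ≤ 2 ^ s * Real.exp (2 * (l * (1 + 2 * l * 2 ^ s))) := by
  have h1 : ∀ b ∈ range (2 ^ s), Real.exp (2 * l * (rho c M s n x y a b : ℝ))
      ≤ 1 + 2 * (l * (1 + 2 * l * 2 ^ s)) * (rho c M s n x y a b : ℝ) := by
    intro b hb
    have hr : (rho c M s n x y a b : ℝ) ≤ 2 ^ s := by
      exact_mod_cast rho_le c M s n x y a b hM (mem_range.1 hb)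
    have hr0 : (0 : ℝ) ≤ (rho c M s n x y a b : ℝ) := Nat.cast_nonneg _
    set r := (rho c M s n x y a b : ℝ) with hrdef
    have h2 : 2 * l * r ≤ 1 := le_trans (by gcongr) hl2
    refine (exp_le_quad (by positivity) h2).trans ?_
    have h3 : (2 * l * r) ^ 2 ≤ 2 * l * r * (2 * l * 2 ^ s) := by
      rw [pow_two]
      gcongr
    nlinarith
  refine (sum_le_sum h1).trans ?_
  rw [sum_add_distrib, ← mul_sum]
  have h4 : ∑ b ∈ range (2 ^ s), (rho c M s n x y a b : ℝ) ≤ 2 ^ s := by
    exact_mod_cast sum_rho_le c M s n x y a hM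
  have h5 : 2 * (l * (1 + 2 * l * 2 ^ s)) + 1 ≤ Real.exp (2 * (l * (1 + 2 * l * 2 ^ s))) :=
    Real.add_one_le_exp _
  have h6 : 0 ≤ 2 * (l * (1 + 2 * l * 2 ^ s)) := by positivity
  simp only [sum_const, card_range, nsmul_eq_mul, mul_one]
  push_cast
  have h7 : (0 : ℝ) < 2 ^ s := by positivity
  nlinarith

theorem avg_max (c : Bool) (M s n p : ℕ) (hM : 0 < M) (l : ℝ) (hl : 0 ≤ l)
    (hl2 : 2 * l * 2 ^ s ≤ 1) (S : Finset ℕ) (hS : ∀ x ∈ S, x < M) (v : ℕ → ℕ) :
    ∑ b ∈ range (2 ^ s), Real.exp (2 * l * ∑ x ∈ S, (rho c M s n x p (v x) b : ℝ))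
      ≤ 2 ^ s * Real.exp (2 * (l * (1 + 2 * l * 2 ^ s)) *
        ∑ x ∈ S, (if (x + p) % M = n % M then (1 : ℝ) else 0)) := by
  by_cases h : ∃ x0 ∈ S, (x0 + p) % M = n % M
  · obtain ⟨x0, hx0, hx0'⟩ := h
    have huniq : ∀ x ∈ S, x ≠ x0 → (x + p) % M ≠ n % M := by
      intro x hx hne heq
      apply hne
      have h1 : x + p ≡ x0 + p [MOD M] := heq.trans hx0'.symm
      exact Nat.ModEq.eq_of_lt_of_lt (Nat.ModEq.add_right_cancel' _ h1) (hS x hx) (hS x0 hx0)
    have h1 : ∀ b, ∑ x ∈ S, (rho c M s n x p (v x) b : ℝ) = (rho c M s n x0 p (v x0) b : ℝ) := by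
      intro b
      apply sum_eq_single_of_mem x0 hx0
      intro x hx hne
      rw [rho_eq_zero (huniq x hx hne)]
      simp
    have h2 : ∑ x ∈ S, (if (x + p) % M = n % M then (1 : ℝ) else 0) = 1 := by
      rw [sum_eq_single_of_mem x0 hx0]
      · simp [hx0']
      · intro x hx hne
        simp [huniq x hx hne]
    rw [h2, mul_one]
    simp only [h1]
    exact avg_one c M s n x0 p (v x0) hM l hl hl2
  · push Not at h
    have h1 : ∀ b, ∑ x ∈ S, (rho c M s n x p (v x) b : ℝ) = 0 := by
      intro b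
      apply sum_eq_zero
      intro x hx
      rw [rho_eq_zero (h x hx)]
      simp
    have h2 : ∑ x ∈ S, (if (x + p) % M = n % M then (1 : ℝ) else 0) = 0 := by
      apply sum_eq_zero
      intro x hx
      simp [h x hx]
    rw [h2]
    simp [h1]

theorem choose_v (c : Bool) (M s : ℕ) (hM : 0 < M) (l : ℝ) (hl : 0 ≤ l)
    (hl2 : 2 * l * 2 ^ s ≤ 1) (N : Finset ℕ) (S : Finset ℕ) :
    (∀ x ∈ S, x < M) → ∀ w : ℕ → ℝ, (∀ n, 0 ≤ w n) →
    ∃ v : ℕ → ℕ, (∀ p, v p < 2 ^ s) ∧
      ∑ n ∈ N, w n * Real.exp (2 * l * pairSum S (fun x y => (rho c M s n x y (v x) (v y) : ℝ)))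
      ≤ ∑ n ∈ N, w n * Real.exp (2 * (l * (1 + 2 * l * 2 ^ s)) *
          pairSum S (fun x y => if (x + y) % M = n % M then (1 : ℝ) else 0)) := by
  induction S using Finset.induction_on_max with
  | empty =>
    intro _ w hw
    exact ⟨fun _ => 0, fun _ => by positivity, by simp [pairSum]⟩
  | insert p S hp ih =>
    intro hS w hw
    have hpS : p ∉ S := fun h => lt_irrefl _ (hp p h)
    have hS' : ∀ x ∈ S, x < M := fun x hx => hS x (mem_insert_of_mem hx)
    set l' : ℝ := l * (1 + 2 * l * 2 ^ s) with hl'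
    obtain ⟨v, hv, hvsum⟩ := ih hS' (fun n => w n * Real.exp (2 * l' *
      ∑ x ∈ S, (if (x + p) % M = n % M then (1 : ℝ) else 0)))
      (fun n => mul_nonneg (hw n) (Real.exp_pos _).le)
    set R : ℝ := ∑ n ∈ N, w n * Real.exp (2 * l' *
          pairSum (insert p S) (fun x y => if (x + y) % M = n % M then (1 : ℝ) else 0)) with hR
    have h1 : ∑ b ∈ range (2 ^ s), ∑ n ∈ N, w n *
        Real.exp (2 * l * pairSum S (fun x y => (rho c M s n x y (v x) (v y) : ℝ))) *
        Real.exp (2 * l * ∑ x ∈ S, (rho c M s n x p (v x) b : ℝ)) ≤ 2 ^ s * R := by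
      rw [sum_comm]
      calc _ ≤ ∑ n ∈ N, w n *
            Real.exp (2 * l * pairSum S (fun x y => (rho c M s n x y (v x) (v y) : ℝ))) *
            (2 ^ s * Real.exp (2 * l' *
              ∑ x ∈ S, (if (x + p) % M = n % M then (1 : ℝ) else 0))) := by
            apply sum_le_sum
            intro n _
            rw [← mul_sum]
            exact mul_le_mul_of_nonneg_left (avg_max c M s n p hM l hl hl2 S hS' v)
              (mul_nonneg (hw n) (Real.exp_pos _).le)
        _ = 2 ^ s * ∑ n ∈ N, (w n * Real.exp (2 * l' *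
              ∑ x ∈ S, (if (x + p) % M = n % M then (1 : ℝ) else 0))) *
            Real.exp (2 * l * pairSum S (fun x y => (rho c M s n x y (v x) (v y) : ℝ))) := by
            rw [mul_sum]
            apply sum_congr rfl
            intro n _
            ring
        _ ≤ 2 ^ s * R := by
            apply mul_le_mul_of_nonneg_left _ (by positivity)
            refine hvsum.trans (le_of_eq ?_)
            rw [hR]
            apply sum_congr rfl
            intro n _
            rw [pairSum_insert hp, mul_add, Real.exp_add]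
            ring
    obtain ⟨b, hb, hb2⟩ : ∃ b ∈ range (2 ^ s), ∑ n ∈ N, w n *
        Real.exp (2 * l * pairSum S (fun x y => (rho c M s n x y (v x) (v y) : ℝ))) *
        Real.exp (2 * l * ∑ x ∈ S, (rho c M s n x p (v x) b : ℝ)) ≤ R := by
      apply exists_le_of_sum_le (by simp)
      refine h1.trans (le_of_eq ?_)
      simp
    refine ⟨Function.update v p b, ?_, ?_⟩
    · intro q
      by_cases hq : q = p
      · subst hq
        simpa using hb
      · rw [Function.update_of_ne hq]
        exact hv q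
    · refine le_trans (le_of_eq ?_) hb2
      apply sum_congr rfl
      intro n _
      have e1 : pairSum S (fun x y => (rho c M s n x y (Function.update v p b x)
          (Function.update v p b y) : ℝ))
          = pairSum S (fun x y => (rho c M s n x y (v x) (v y) : ℝ)) := by
        unfold pairSum
        apply sum_congr rfl
        intro y hy
        apply sum_congr rfl
        intro x hx
        have hx' := (mem_filter.1 hx).1
        simp only
        rw [Function.update_of_ne (hp x hx').ne, Function.update_of_ne (hp y hy).ne]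
      have e2 : ∑ x ∈ S, (rho c M s n x p (Function.update v p b x)
          (Function.update v p b p) : ℝ) = ∑ x ∈ S, (rho c M s n x p (v x) b : ℝ) := by
        apply sum_congr rfl
        intro x hx
        rw [Function.update_of_ne (hp x hx).ne, Function.update_self]
      rw [pairSum_insert hp, e1, e2, mul_add, Real.exp_add]
      ring

/-- the extended set -/
def ext (c : Bool) (M s : ℕ) (P : Finset ℕ) (v : ℕ → ℕ) : Finset ℕ :=
  (P ×ˢ range (2 ^ s)).image (fun q => q.1 + M * (co c * d q.2 + co (!c) * d (v q.1)))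

theorem mem_ext {c : Bool} {M s : ℕ} {P : Finset ℕ} {v : ℕ → ℕ} {x : ℕ} :
    x ∈ ext c M s P v ↔ ∃ p ∈ P, ∃ t < 2 ^ s, x = p + M * (co c * d t + co (!c) * d (v p)) := by
  simp only [ext, mem_image, mem_product, mem_range, Prod.exists]
  constructor
  · rintro ⟨p, t, ⟨h1, h2⟩, h3⟩
    exact ⟨p, h1, t, h2, h3.symm⟩
  · rintro ⟨p, h1, t, h2, h3⟩
    exact ⟨p, t, ⟨h1, h2⟩, h3.symm⟩

theorem ext_lt {c : Bool} {M s : ℕ} {P : Finset ℕ} {v : ℕ → ℕ} (hP : ∀ x ∈ P, x < M)
    (hv : ∀ p, v p < 2 ^ s) : ∀ x ∈ ext c M s P v, x < M * 4 ^ s := by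
  intro x hx
  obtain ⟨p, hp, t, ht, rfl⟩ := mem_ext.1 hx
  have h1 := hP p hp
  have h2 := co_lt (c := c) ht (hv p)
  calc p + M * (co c * d t + co (!c) * d (v p)) < M + M * (co c * d t + co (!c) * d (v p)) := by
        omega
    _ = M * (co c * d t + co (!c) * d (v p) + 1) := by ring
    _ ≤ M * 4 ^ s := Nat.mul_le_mul_left _ h2

theorem card_ext {c : Bool} {M s : ℕ} {P : Finset ℕ} {v : ℕ → ℕ} (hP : ∀ x ∈ P, x < M) :
    (ext c M s P v).card = P.card * 2 ^ s := by
  rw [ext, card_image_of_injOn, card_product, card_range]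
  rintro ⟨p, t⟩ h ⟨p', t'⟩ h' heq
  simp only [coe_product, Set.mem_prod, mem_coe, mem_range] at h h' heq
  have hp := hP p h.1
  have hp' := hP p' h'.1
  have h1 : p = p' := by
    have := congrArg (· % M) heq
    simp only [Nat.add_mul_mod_self_left] at this
    rwa [Nat.mod_eq_of_lt hp, Nat.mod_eq_of_lt hp'] at this
  subst h1
  have hM : 0 < M := by omega
  have h2 : co c * d t + co (!c) * d (v p) = co c * d t' + co (!c) * d (v p) := by
    have := Nat.add_left_cancel heq
    exact Nat.eq_of_mul_eq_mul_left hM this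
  have := co_split_unique h2
  rw [this.1]

theorem Z_ext_le (c : Bool) (M s n : ℕ) (P : Finset ℕ) (v : ℕ → ℕ) :
    Z (ext c M s P v) (M * 4 ^ s) n ≤ ∑ x ∈ P, ∑ y ∈ P, rho c M s n x y (v x) (v y) := by
  have h1 : ∑ x ∈ P, ∑ y ∈ P, rho c M s n x y (v x) (v y)
      = (((P ×ˢ P) ×ˢ (range (2 ^ s) ×ˢ range (2 ^ s))).filter (fun q =>
        ((q.1.1 + M * (co c * d q.2.1 + co (!c) * d (v q.1.1)))
          + (q.1.2 + M * (co c * d q.2.2 + co (!c) * d (v q.1.2))))
          % (M * 4 ^ s) = n % (M * 4 ^ s))).card := by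
    rw [card_filter, sum_product, sum_product]
    apply sum_congr rfl
    intro x _
    apply sum_congr rfl
    intro y _
    rw [rho, card_filter]
  rw [h1, Z]
  refine (card_le_card ?_).trans (card_image_le (f := fun q : (ℕ × ℕ) × (ℕ × ℕ) =>
    (q.1.1 + M * (co c * d q.2.1 + co (!c) * d (v q.1.1)),
      q.1.2 + M * (co c * d q.2.2 + co (!c) * d (v q.1.2)))))
  rintro ⟨x', y'⟩ h
  simp only [mem_filter, mem_product] at h
  obtain ⟨⟨hx', hy'⟩, h2⟩ := h
  obtain ⟨x, hx, t, ht, rfl⟩ := mem_ext.1 hx'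
  obtain ⟨y, hy, t', ht', rfl⟩ := mem_ext.1 hy'
  rw [mem_image]
  refine ⟨((x, y), (t, t')), ?_, rfl⟩
  simp only [mem_filter, mem_product, mem_range]
  exact ⟨⟨⟨hx, hy⟩, ht, ht'⟩, h2⟩

theorem sum_range_mod (f : ℕ → ℝ) (M K : ℕ) :
    ∑ n ∈ range (M * K), f (n % M) = K * ∑ n ∈ range M, f n := by
  induction K with
  | zero => simp
  | succ K ih =>
    rw [Nat.mul_succ, sum_range_add, ih]
    have h1 : ∑ x ∈ range M, f ((M * K + x) % M) = ∑ x ∈ range M, f x := by
      apply sum_congr rfl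
      intro x hx
      rw [Nat.mul_add_mod, Nat.mod_eq_of_lt (mem_range.1 hx)]
    rw [h1]
    push_cast
    ring

theorem two_pairSum_le_Z (P : Finset ℕ) (M n : ℕ) :
    2 * pairSum P (fun x y => if (x + y) % M = n % M then (1 : ℝ) else 0) ≤ Z P M n := by
  have h1 := sum_sum_eq P (fun x y => if (x + y) % M = n % M then (1 : ℝ) else 0)
    (by intro x y; simp only [add_comm])
  have h2 : (Z P M n : ℝ) = ∑ x ∈ P, ∑ y ∈ P, if (x + y) % M = n % M then (1 : ℝ) else 0 := by
    rw [Z, card_filter, sum_product]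
    push_cast
    rfl
  have h3 : 0 ≤ ∑ x ∈ P, (if (x + x) % M = n % M then (1 : ℝ) else 0) := by
    apply sum_nonneg
    intro x _
    split_ifs <;> norm_num
  rw [h2, h1]
  linarith

theorem diag_le (P : Finset ℕ) (M n : ℕ) (hM : 0 < M) (hP : ∀ x ∈ P, x < M) :
    (P.filter (fun x => (x + x) % M = n % M)).card ≤ 2 := by
  have : P.filter (fun x => (x + x) % M = n % M) ⊆ {n % M / 2, (n % M + M) / 2} := by
    intro x hx
    simp only [mem_filter] at hx
    have h1 := hP x hx.1
    have h2 := hx.2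
    simp only [mem_insert, mem_singleton]
    by_cases h3 : x + x < M
    · rw [Nat.mod_eq_of_lt h3] at h2
      omega
    · have h4 : (x + x) % M = x + x - M := by
        rw [Nat.mod_eq_sub_mod (by omega)]
        exact Nat.mod_eq_of_lt (by omega)
      rw [h4] at h2
      omega
  exact (card_le_card this).trans card_le_two

/-- The hashing lemma. -/
theorem hash (c : Bool) (M s : ℕ) (hM : 0 < M) (l : ℝ) (hl : 0 ≤ l) (hl2 : 2 * l * 2 ^ s ≤ 1)
    (P : Finset ℕ) (hP : ∀ x ∈ P, x < M) :
    ∃ v : ℕ → ℕ, (∀ p, v p < 2 ^ s) ∧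
      ∑ n ∈ range (M * 4 ^ s), Real.exp (l * Z (ext c M s P v) (M * 4 ^ s) n)
      ≤ Real.exp (2 * l * 2 ^ s) * (4 ^ s *
        ∑ n ∈ range M, Real.exp (l * (1 + 2 * l * 2 ^ s) * Z P M n)) := by
  obtain ⟨v, hv, hsum⟩ := choose_v c M s hM l hl hl2 (range (M * 4 ^ s)) P hP (fun _ => 1)
    (fun _ => zero_le_one)
  refine ⟨v, hv, ?_⟩
  set l' : ℝ := l * (1 + 2 * l * 2 ^ s) with hl'
  have hl'0 : 0 ≤ l' := by positivity
  simp only [one_mul] at hsum
  have h1 : ∀ n, (Z (ext c M s P v) (M * 4 ^ s) n : ℝ)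
      ≤ 2 * pairSum P (fun x y => (rho c M s n x y (v x) (v y) : ℝ)) + 2 * 2 ^ s := by
    intro n
    have h2 : (Z (ext c M s P v) (M * 4 ^ s) n : ℝ)
        ≤ ∑ x ∈ P, ∑ y ∈ P, (rho c M s n x y (v x) (v y) : ℝ) := by
      exact_mod_cast Z_ext_le c M s n P v
    rw [sum_sum_eq P (fun x y => (rho c M s n x y (v x) (v y) : ℝ))
      (fun x y => by rw [rho_symm])] at h2
    have h3 : ∑ x ∈ P, (rho c M s n x x (v x) (v x) : ℝ) ≤ 2 * 2 ^ s := by
      calc ∑ x ∈ P, (rho c M s n x x (v x) (v x) : ℝ)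
          ≤ ∑ x ∈ P, (if (x + x) % M = n % M then (2 : ℝ) ^ s else 0) := by
            apply sum_le_sum
            intro x _
            split_ifs with h
            · exact_mod_cast rho_le c M s n x x (v x) (v x) hM (hv x)
            · rw [rho_eq_zero h]
              simp
        _ = (P.filter (fun x => (x + x) % M = n % M)).card * (2 : ℝ) ^ s := by
            rw [← sum_filter, sum_const, nsmul_eq_mul]
        _ ≤ 2 * 2 ^ s := by
            apply mul_le_mul_of_nonneg_right _ (by positivity)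
            exact_mod_cast diag_le P M n hM hP
    linarith
  calc ∑ n ∈ range (M * 4 ^ s), Real.exp (l * Z (ext c M s P v) (M * 4 ^ s) n)
      ≤ ∑ n ∈ range (M * 4 ^ s), Real.exp (2 * l * 2 ^ s) *
          Real.exp (2 * l * pairSum P (fun x y => (rho c M s n x y (v x) (v y) : ℝ))) := by
        apply sum_le_sum
        intro n _
        rw [← Real.exp_add]
        apply Real.exp_le_exp.2
        have := mul_le_mul_of_nonneg_left (h1 n) hl
        nlinarith
    _ = Real.exp (2 * l * 2 ^ s) * ∑ n ∈ range (M * 4 ^ s),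
          Real.exp (2 * l * pairSum P (fun x y => (rho c M s n x y (v x) (v y) : ℝ))) := by
        rw [mul_sum]
    _ ≤ Real.exp (2 * l * 2 ^ s) * ∑ n ∈ range (M * 4 ^ s),
          Real.exp (l' * Z P M n) := by
        apply mul_le_mul_of_nonneg_left _ (Real.exp_pos _).le
        refine hsum.trans ?_
        apply sum_le_sum
        intro n _
        apply Real.exp_le_exp.2
        have := mul_le_mul_of_nonneg_left (two_pairSum_le_Z P M n) hl'0
        linarith
    _ = Real.exp (2 * l * 2 ^ s) * (4 ^ s * ∑ n ∈ range M, Real.exp (l' * Z P M n)) := by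
        congr 1
        have := sum_range_mod (fun n => Real.exp (l' * Z P M n)) M (4 ^ s)
        push_cast at this
        rw [← this]
        apply sum_congr rfl
        intro n _
        have : Z P M (n % M) = Z P M n := by
          unfold Z
          rw [Nat.mod_mod]
        rw [this]

end Pool.Agent.Y940.HB
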