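import Mathlib
import Pool.Agent.Y940.HB.Hash
/-!
# The towers of hashed digit sets
-/

set_option autoImplicit false

open Finset

namespace Pool.Agent.Y940.HB

/-- slowly growing parameter -/
def el (i : ℕ) : ℕ := Nat.log 256 (i + 1) + 2

/-- block lengths -/
def s (i : ℕ) : ℕ := 2 * el i

/-- block positions -/
def m : ℕ → ℕ
  | 0 => 0
  | i + 1 => m i + s i

theorem el_ge (i : ℕ) : 2 ≤ el i := by simp [el]

theorem el_mono {i j : ℕ} (h : i ≤ j) : el i ≤ el j := by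
  unfold el
  have := Nat.log_mono_right (b := 256) (Nat.add_le_add_right h 1)
  omega

theorem s_mono {i j : ℕ} (h : i ≤ j) : s i ≤ s j := Nat.mul_le_mul_left _ (el_mono h)

theorem s_ge (i : ℕ) : 4 ≤ s i := by
  have := el_ge i
  unfold s
  omega

theorem m_succ (i : ℕ) : m (i + 1) = m i + s i := rfl

theorem m_mono {i j : ℕ} (h : i ≤ j) : m i ≤ m j := by
  induction j, h using Nat.le_induction with
  | base => exact le_rfl
  | succ j _ ih => rw [m_succ]; omega

theorem m_ge (i : ℕ) : 4 * i ≤ m i := by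
  induction i with
  | zero => exact Nat.zero_le _
  | succ i ih =>
    have := s_ge i
    rw [m_succ]
    omega

theorem pow_el (i : ℕ) : 256 ^ el i ≤ 65536 * (i + 1) := by
  unfold el
  rw [pow_add]
  have := Nat.pow_log_le_self 256 (x := i + 1) (by omega)
  omega

/-- exponential parameter -/
noncomputable def lam (i : ℕ) : ℝ := 1 / (4 * 2 ^ s i * (i + 1))

theorem lam_pos (i : ℕ) : 0 < lam i := by unfold lam; positivity

theorem lam_step (i : ℕ) : 2 * lam (i + 1) * 2 ^ s i ≤ 1 / (2 * ((i : ℝ) + 2)) := by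
  unfold lam
  have h1 : (2 : ℝ) ^ s i ≤ 2 ^ s (i + 1) := pow_le_pow_right₀ (by norm_num) (s_mono (by omega))
  have h2 : (0 : ℝ) < 2 ^ s i := by positivity
  have h3 : (0 : ℝ) < 2 ^ s (i + 1) := by positivity
  push_cast
  have e : 2 * (1 / (4 * 2 ^ s (i + 1) * ((i : ℝ) + 1 + 1))) * 2 ^ s i
      = (2 ^ s i / 2 ^ s (i + 1)) * (1 / (2 * ((i : ℝ) + 2))) := by
    field_simp
    ring
  rw [e]
  have h4 : (2 : ℝ) ^ s i / 2 ^ s (i + 1) ≤ 1 := by
    rw [div_le_one h3]
    exact h1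
  have h5 : (0 : ℝ) ≤ 1 / (2 * ((i : ℝ) + 2)) := by positivity
  nlinarith

theorem lam_rec (i : ℕ) : lam (i + 1) * (1 + 2 * lam (i + 1) * 2 ^ s i) ≤ lam i := by
  have h1 := lam_step i
  have h2 : lam (i + 1) ≤ 1 / (4 * 2 ^ s i * ((i : ℝ) + 2)) := by
    unfold lam
    push_cast
    have h1 : (2 : ℝ) ^ s i ≤ 2 ^ s (i + 1) := pow_le_pow_right₀ (by norm_num) (s_mono (by omega))
    apply one_div_le_one_div_of_le (by positivity)
    have : (i : ℝ) + 1 + 1 = i + 2 := by ring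
    rw [this]
    gcongr
  have h3 := lam_pos (i + 1)
  calc lam (i + 1) * (1 + 2 * lam (i + 1) * 2 ^ s i)
      ≤ 1 / (4 * 2 ^ s i * ((i : ℝ) + 2)) * (1 + 1 / (2 * ((i : ℝ) + 2))) := by
        gcongr
    _ ≤ lam i := by
        unfold lam
        have e : 1 / (4 * 2 ^ s i * ((i : ℝ) + 2)) * (1 + 1 / (2 * ((i : ℝ) + 2)))
          = (2 * (i : ℝ) + 5) / (4 * 2 ^ s i * (2 * ((i : ℝ) + 2) ^ 2)) := by
          field_simp
          ring
        rw [e, div_le_div_iff₀ (by positivity) (by positivity)]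
        have h4 : (0 : ℝ) < 4 * 2 ^ s i := by positivity
        have h5 : (0 : ℝ) ≤ i := Nat.cast_nonneg i
        have h6 : (2 * (i : ℝ) + 5) * (i + 1) ≤ 2 * ((i : ℝ) + 2) ^ 2 := by nlinarith
        nlinarith

/-- invariants of the tower -/
def Good (i : ℕ) (P : Finset ℕ) : Prop :=
  (∀ x ∈ P, x < 4 ^ m i) ∧
    ∑ n ∈ range (4 ^ m i), Real.exp (lam i * Z P (4 ^ m i) n) ≤ Real.exp (i + 1) * 4 ^ m i

theorem good_zero : Good 0 {0} := by
  refine ⟨by simp [m], ?_⟩
  have h1 : Z {0} (4 ^ m 0) 0 ≤ 1 := by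
    unfold Z
    refine (card_filter_le _ _).trans (by simp)
  simp only [m, pow_zero, range_one, sum_singleton, Nat.cast_zero, zero_add, mul_one]
  apply Real.exp_le_exp.2
  have h2 : lam 0 ≤ 1 := by
    unfold lam
    rw [div_le_one (by positivity)]
    have : (1 : ℝ) ≤ 2 ^ s 0 := one_le_pow₀ (by norm_num)
    push_cast
    linarith
  have h3 := lam_pos 0
  have h4 : (Z {0} (4 ^ m 0) 0 : ℝ) ≤ 1 := by exact_mod_cast h1
  have h5 : (0 : ℝ) ≤ (Z {0} (4 ^ m 0) 0 : ℝ) := Nat.cast_nonneg _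
  simp only [m, pow_zero] at h4 h5
  nlinarith

theorem good_succ (c : Bool) (i : ℕ) (P : Finset ℕ) (h : Good i P) :
    ∃ v : ℕ → ℕ, (∀ p, v p < 2 ^ s i) ∧ Good (i + 1) (ext c (4 ^ m i) (s i) P v) := by
  have h1 : 2 * lam (i + 1) * 2 ^ s i ≤ 1 := by
    refine (lam_step i).trans ?_
    rw [div_le_one (by positivity)]
    have : (0 : ℝ) ≤ i := Nat.cast_nonneg i
    linarith
  obtain ⟨v, hv, hsum⟩ := hash c (4 ^ m i) (s i) (by positivity) (lam (i + 1)) (lam_pos _).le h1 P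
    h.1
  refine ⟨v, hv, ?_, ?_⟩
  · intro x hx
    have := ext_lt h.1 hv x hx
    rwa [m_succ, pow_add]
  · rw [m_succ, pow_add]
    refine hsum.trans ?_
    have h2 : ∑ n ∈ range (4 ^ m i), Real.exp (lam (i + 1) * (1 + 2 * lam (i + 1) * 2 ^ s i) *
        Z P (4 ^ m i) n) ≤ Real.exp (i + 1) * 4 ^ m i := by
      refine le_trans (sum_le_sum ?_) h.2
      intro n _
      apply Real.exp_le_exp.2
      exact mul_le_mul_of_nonneg_right (lam_rec i) (Nat.cast_nonneg _)
    have h3 : Real.exp (2 * lam (i + 1) * 2 ^ s i) ≤ Real.exp 1 := Real.exp_le_exp.2 h1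
    calc _ ≤ Real.exp 1 * (4 ^ s i * (Real.exp (i + 1) * 4 ^ m i)) := by
          gcongr
      _ = Real.exp (((i + 1 : ℕ) : ℝ) + 1) * (4 ^ (m i) * 4 ^ (s i)) := by
          have : Real.exp (((i + 1 : ℕ) : ℝ) + 1) = Real.exp (i + 1) * Real.exp 1 := by
            rw [← Real.exp_add]
            push_cast
            ring_nf
          rw [this]
          ring
      _ = _ := by
          push_cast
          rw [pow_add]

theorem good_bound {i : ℕ} {P : Finset ℕ} (h : Good i P) (n : ℕ) :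
    (Z P (4 ^ m i) n : ℝ) ≤ 4 * 2 ^ s i * (i + 1) * (i + 1 + 2 * m i) := by
  have h0 : Z P (4 ^ m i) n = Z P (4 ^ m i) (n % 4 ^ m i) := by
    unfold Z
    rw [Nat.mod_mod]
  rw [h0]
  have h1 : Real.exp (lam i * Z P (4 ^ m i) (n % 4 ^ m i)) ≤ Real.exp (i + 1) * 4 ^ m i :=
    (single_le_sum (f := fun n => Real.exp (lam i * Z P (4 ^ m i) n))
      (fun _ _ => (Real.exp_pos _).le)
      (mem_range.2 (Nat.mod_lt n (by positivity)))).trans h.2
  have h2 : (4 : ℝ) ^ m i ≤ Real.exp (2 * m i) := by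
    have : (4 : ℝ) ≤ Real.exp 2 := by
      have := Real.quadratic_le_exp_of_nonneg (x := 2) (by norm_num)
      linarith
    calc (4 : ℝ) ^ m i ≤ (Real.exp 2) ^ m i := pow_le_pow_left₀ (by norm_num) this _
      _ = Real.exp (2 * m i) := by
          rw [← Real.exp_nat_mul]
          ring_nf
  have h3 : Real.exp (lam i * Z P (4 ^ m i) (n % 4 ^ m i)) ≤ Real.exp (i + 1 + 2 * m i) := by
    rw [Real.exp_add]
    exact h1.trans (mul_le_mul_of_nonneg_left h2 (Real.exp_pos _).le)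
  have h4 := Real.exp_le_exp.1 h3
  unfold lam at h4
  rw [div_mul_eq_mul_div, one_mul, div_le_iff₀ (by positivity)] at h4
  linarith

theorem tower (c : Bool) : ∃ (P : ℕ → Finset ℕ) (v : ℕ → ℕ → ℕ), P 0 = {0} ∧
    (∀ i p, v i p < 2 ^ s i) ∧ (∀ i, P (i + 1) = ext c (4 ^ m i) (s i) (P i) (v i)) ∧
    (∀ i n, (Z (P i) (4 ^ m i) n : ℝ) ≤ 4 * 2 ^ s i * (i + 1) * (i + 1 + 2 * m i)) := by
  have step : ∀ (i : ℕ) (P : {P : Finset ℕ // Good i P}), ∃ v : ℕ → ℕ, (∀ p, v p < 2 ^ s i) ∧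
      Good (i + 1) (ext c (4 ^ m i) (s i) P.1 v) := fun i P => good_succ c i P.1 P.2
  choose v hv hgood using step
  let Q : ∀ i : ℕ, {P : Finset ℕ // Good i P} := fun i =>
    Nat.rec ⟨{0}, good_zero⟩ (fun i P => ⟨ext c (4 ^ m i) (s i) P.1 (v i P), hgood i P⟩) i
  refine ⟨fun i => (Q i).1, fun i => v i (Q i), rfl, fun i p => hv i (Q i) p, fun i => rfl, ?_⟩
  intro i n
  exact good_bound (Q i).2 n

theorem tower_lt {c : Bool} {P : ℕ → Finset ℕ} {v : ℕ → ℕ → ℕ} (h0 : P 0 = {0})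
    (hv : ∀ i p, v i p < 2 ^ s i) (hP : ∀ i, P (i + 1) = ext c (4 ^ m i) (s i) (P i) (v i)) :
    ∀ i, ∀ x ∈ P i, x < 4 ^ m i := by
  intro i
  induction i with
  | zero =>
    intro x hx
    rw [h0, mem_singleton] at hx
    subst hx
    positivity
  | succ i ih =>
    intro x hx
    rw [hP i] at hx
    rw [m_succ, pow_add]
    exact ext_lt ih (hv i) x hx

theorem tower_card {c : Bool} {P : ℕ → Finset ℕ} {v : ℕ → ℕ → ℕ} (h0 : P 0 = {0})
    (hv : ∀ i p, v i p < 2 ^ s i) (hP : ∀ i, P (i + 1) = ext c (4 ^ m i) (s i) (P i) (v i)) :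
    ∀ i, (P i).card = 2 ^ m i := by
  intro i
  induction i with
  | zero =>
    rw [h0]
    simp [m]
  | succ i ih =>
    rw [hP i, card_ext (tower_lt h0 hv hP i), ih, m_succ, pow_add]

/-- unique decoding -/
theorem tower_decode {P Q : ℕ → Finset ℕ} {v w : ℕ → ℕ → ℕ} (h0 : P 0 = {0}) (h0' : Q 0 = {0})
    (hP : ∀ i, P (i + 1) = ext true (4 ^ m i) (s i) (P i) (v i))
    (hQ : ∀ i, Q (i + 1) = ext false (4 ^ m i) (s i) (Q i) (w i)) :
    ∀ i, ∀ p ∈ P i, ∀ q ∈ Q i, ∀ p' ∈ P i, ∀ q' ∈ Q i, p + q ≡ p' + q' [MOD 4 ^ m i] →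
      p = p' ∧ q = q' := by
  intro i
  induction i with
  | zero =>
    intro p hp q hq p' hp' q' hq' _
    rw [h0, mem_singleton] at hp hp'
    rw [h0', mem_singleton] at hq hq'
    exact ⟨by rw [hp, hp'], by rw [hq, hq']⟩
  | succ i ih =>
    intro p hp q hq p' hp' q' hq' hmod
    rw [hP i] at hp hp'
    rw [hQ i] at hq hq'
    obtain ⟨a, ha, t, ht, rfl⟩ := mem_ext.1 hp
    obtain ⟨b, hb, u, hu, rfl⟩ := mem_ext.1 hq
    obtain ⟨a', ha', t', ht', rfl⟩ := mem_ext.1 hp'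
    obtain ⟨b', hb', u', hu', rfl⟩ := mem_ext.1 hq'
    simp only [co_true, co_false, Bool.not_true, Bool.not_false, one_mul] at hmod ⊢
    rw [m_succ, pow_add] at hmod
    set M := 4 ^ m i with hM
    have hM0 : 0 < M := by positivity
    have h1 : a + b ≡ a' + b' [MOD M] := by
      have h2 := Nat.ModEq.of_mul_right _ hmod
      have e1 : a + M * (d t + 2 * d (v i a)) + (b + M * (2 * d u + d (w i b)))
        = (a + b) + M * (d t + 2 * d (v i a) + (2 * d u + d (w i b))) := by ring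
      have e2 : a' + M * (d t' + 2 * d (v i a')) + (b' + M * (2 * d u' + d (w i b')))
        = (a' + b') + M * (d t' + 2 * d (v i a') + (2 * d u' + d (w i b'))) := by ring
      rw [e1, e2] at h2
      unfold Nat.ModEq at h2 ⊢
      rwa [Nat.add_mul_mod_self_left, Nat.add_mul_mod_self_left] at h2
    obtain ⟨rfl, rfl⟩ := ih a ha b hb a' ha' b' hb' h1
    have h3 : M * (d t + 2 * d u) ≡ M * (d t' + 2 * d u') [MOD M * 4 ^ s i] := by
      apply Nat.ModEq.add_left_cancel' (a + b + M * (2 * d (v i a) + d (w i b)))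
      have e1 : a + M * (d t + 2 * d (v i a)) + (b + M * (2 * d u + d (w i b)))
        = a + b + M * (2 * d (v i a) + d (w i b)) + M * (d t + 2 * d u) := by ring
      have e2 : a + M * (d t' + 2 * d (v i a)) + (b + M * (2 * d u' + d (w i b)))
        = a + b + M * (2 * d (v i a) + d (w i b)) + M * (d t' + 2 * d u') := by ring
      rwa [e1, e2] at hmod
    have h4 := Nat.ModEq.mul_left_cancel' hM0.ne' h3
    have h5 : d t + 2 * d u < 4 ^ s i := by
      have := co_lt (c := true) ht hu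
      simpa using this
    have h6 : d t' + 2 * d u' < 4 ^ s i := by
      have := co_lt (c := true) ht' hu'
      simpa using this
    have h7 := split_unique (Nat.ModEq.eq_of_lt_of_lt h4 h5 h6)
    obtain ⟨rfl, rfl⟩ := h7
    exact ⟨rfl, rfl⟩

end Pool.Agent.Y940.HB
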