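import Mathlib
import Pool.Agent.Y940.HB.Tower
/-!
# The system of hashed sets and the covering property
-/

set_option autoImplicit false

open Finset

namespace Pool.Agent.Y940.HB

/-- equidistributed colouring of a finite set -/
theorem exists_colour (P : Finset ℕ) (K : ℕ) (hK : 0 < K) :
    ∃ f : ℕ → ℕ, (∀ p, f p < K) ∧ ∀ h, (P.filter (fun p => f p = h)).card ≤ P.card / K + 1 := by
  classical
  let r : ℕ → ℕ := fun p => (P.filter (· < p)).card
  have hr : ∀ p ∈ P, ∀ q ∈ P, p < q → r p < r q := by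
    intro p hp q _ hpq
    apply card_lt_card
    refine ⟨fun x hx => ?_, fun h => ?_⟩
    · simp only [mem_filter] at hx ⊢
      exact ⟨hx.1, hx.2.trans hpq⟩
    · have : p ∈ P.filter (· < p) := h (mem_filter.2 ⟨hp, hpq⟩)
      exact lt_irrefl _ (mem_filter.1 this).2
  have hinj : ∀ p ∈ P, ∀ q ∈ P, r p = r q → p = q := by
    intro p hp q hq h
    rcases lt_trichotomy p q with h1 | h1 | h1
    · exact absurd h (hr p hp q hq h1).ne
    · exact h1
    · exact absurd h (hr q hq p hp h1).ne'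
  have hlt : ∀ p ∈ P, r p < P.card := by
    intro p hp
    apply card_lt_card
    refine ⟨filter_subset _ _, fun h => ?_⟩
    exact lt_irrefl _ (mem_filter.1 (h hp)).2
  refine ⟨fun p => r p % K, fun p => Nat.mod_lt _ hK, fun h => ?_⟩
  calc (P.filter (fun p => r p % K = h)).card ≤ (range (P.card / K + 1)).card := by
        apply card_le_card_of_injOn (fun p => r p / K)
        · intro p hp
          simp only [coe_filter, Set.mem_ofPred_eq] at hp
          simp only [coe_range, Set.mem_Iio]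
          have := hlt p hp.1
          exact Nat.lt_succ_of_le (Nat.div_le_div_right this.le)
        · intro p hp q hq hpq
          simp only [coe_filter, Set.mem_ofPred_eq] at hp hq
          apply hinj p hp.1 q hq.1
          simp only at hpq
          rw [← Nat.div_add_mod (r p) K, ← Nat.div_add_mod (r q) K, hpq, hp.2, hq.2]
    _ = P.card / K + 1 := card_range _

/-- upper bound for the number of representations modulo `4 ^ m i` -/
def zb (i : ℕ) : ℕ := 4 * 2 ^ s i * (i + 1) * (i + 1 + 2 * m i)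

/-- the data of the construction -/
structure Sys where
  P : Bool → ℕ → Finset ℕ
  v : Bool → ℕ → ℕ → ℕ
  th : Bool → ℕ → ℕ → ℕ
  P0 : ∀ c, P c 0 = {0}
  hv : ∀ c i p, v c i p < 2 ^ s i
  hP : ∀ c i, P c (i + 1) = ext c (4 ^ m i) (s i) (P c i) (v c i)
  hZ : ∀ c i n, Z (P c i) (4 ^ m i) n ≤ zb i
  hth : ∀ c i p, th c i p < el i
  hfib : ∀ c i h, ((P c i).filter (fun p => th c i p = h)).card ≤ 2 ^ m i / el i + 1

theorem sys_exists : Nonempty Sys := by
  have h := fun c => tower c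
  choose P v h0 hv hP hZ using h
  have hc := fun c i => exists_colour (P c i) (el i) (by have := el_ge i; omega)
  choose th hth hfib using hc
  refine ⟨⟨P, v, th, h0, hv, hP, ?_, hth, ?_⟩⟩
  · intro c i n
    have := hZ c i n
    unfold zb
    exact_mod_cast this
  · intro c i h
    have := hfib c i h
    rwa [tower_card (h0 c) (hv c) (hP c) i] at this

namespace Sys

variable (S : Sys)

theorem P_lt (c : Bool) (i : ℕ) {x : ℕ} (hx : x ∈ S.P c i) : x < 4 ^ m i :=
  tower_lt (S.P0 c) (S.hv c) (S.hP c) i x hx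

theorem P_card (c : Bool) (i : ℕ) : (S.P c i).card = 2 ^ m i :=
  tower_card (S.P0 c) (S.hv c) (S.hP c) i

theorem decode_unique (i : ℕ) {p q p' q' : ℕ} (hp : p ∈ S.P true i) (hq : q ∈ S.P false i)
    (hp' : p' ∈ S.P true i) (hq' : q' ∈ S.P false i) (h : p + q ≡ p' + q' [MOD 4 ^ m i]) :
    p = p' ∧ q = q' :=
  tower_decode (S.P0 true) (S.P0 false) (S.hP true) (S.hP false) i p hp q hq p' hp' q' hq' h

theorem decode_exists (i n : ℕ) : ∃ p ∈ S.P true i, ∃ q ∈ S.P false i,
    (p + q) % 4 ^ m i = n % 4 ^ m i := by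
  have hinj : Set.InjOn (fun x : ℕ × ℕ => (x.1 + x.2) % 4 ^ m i)
      (S.P true i ×ˢ S.P false i : Finset (ℕ × ℕ)) := by
    rintro ⟨p, q⟩ h ⟨p', q'⟩ h' heq
    simp only [coe_product, Set.mem_prod, mem_coe] at h h'
    have := S.decode_unique i h.1 h.2 h'.1 h'.2 heq
    rw [this.1, this.2]
  have himg : (S.P true i ×ˢ S.P false i).image (fun x : ℕ × ℕ => (x.1 + x.2) % 4 ^ m i)
      = range (4 ^ m i) := by
    apply eq_of_subset_of_card_le
    · intro x hx
      obtain ⟨y, _, rfl⟩ := mem_image.1 hx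
      exact mem_range.2 (Nat.mod_lt _ (by positivity))
    · rw [card_image_of_injOn hinj, card_product, S.P_card, S.P_card, card_range, ← pow_add,
        ← two_mul, pow_mul]
      norm_num
  have : n % 4 ^ m i ∈ (S.P true i ×ˢ S.P false i).image
      (fun x : ℕ × ℕ => (x.1 + x.2) % 4 ^ m i) := by
    rw [himg]
    exact mem_range.2 (Nat.mod_lt _ (by positivity))
  obtain ⟨⟨p, q⟩, h, h2⟩ := mem_image.1 this
  rw [mem_product] at h
  exact ⟨p, h.1, q, h.2, h2⟩

theorem P_mod (c : Bool) {i j : ℕ} (hij : i ≤ j) : ∀ x ∈ S.P c j, x % 4 ^ m i ∈ S.P c i := by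
  induction j, hij using Nat.le_induction with
  | base =>
    intro x hx
    rw [Nat.mod_eq_of_lt (S.P_lt c i hx)]
    exact hx
  | succ j hij ih =>
    intro x hx
    rw [S.hP c j] at hx
    obtain ⟨p, hp, t, ht, rfl⟩ := mem_ext.1 hx
    have h1 : 4 ^ m i ∣ 4 ^ m j := pow_dvd_pow 4 (m_mono hij)
    obtain ⟨k, hk⟩ := h1
    have h2 : (p + 4 ^ m j * (co c * d t + co (!c) * d (S.v c j p))) % 4 ^ m i = p % 4 ^ m i := by
      rw [hk, mul_assoc, Nat.add_mul_mod_self_left]
    rw [h2]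
    exact ih p hp

/-- the delay of activation -/
def kap (c : Bool) : ℕ → ℕ → ℕ
  | 0, _ => 1
  | j + 1, p => 4 ^ S.th c j (p % 4 ^ m j)

theorem kap_pos (c : Bool) (j p : ℕ) : 1 ≤ S.kap c j p := by
  cases j with
  | zero => exact le_rfl
  | succ j => exact Nat.one_le_pow _ _ (by norm_num)

/-- elements of level `j` and type `c` -/
def El (c : Bool) (j : ℕ) : Set ℕ :=
  {a | ∃ p ∈ S.P c j, ∃ u < 2 ^ (s j + S.th c j p + 2),
    a = p + 4 ^ m j * (S.kap c j p + co c * d u)}

/-- the set -/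
def A : Set ℕ := {a | ∃ c j, a ∈ S.El c j}

theorem El_ge {c : Bool} {j a : ℕ} (h : a ∈ S.El c j) : 4 ^ m j ≤ a := by
  obtain ⟨p, hp, u, hu, rfl⟩ := h
  have h1 := S.kap_pos c j p
  calc 4 ^ m j = 4 ^ m j * 1 := (mul_one _).symm
    _ ≤ 4 ^ m j * (S.kap c j p + co c * d u) := Nat.mul_le_mul_left _ (by omega)
    _ ≤ _ := Nat.le_add_left _ _

theorem El_mod {c : Bool} {i j a : ℕ} (hij : i ≤ j) (h : a ∈ S.El c j) :
    a % 4 ^ m i ∈ S.P c i := by
  obtain ⟨p, hp, u, hu, rfl⟩ := h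
  have h1 : 4 ^ m i ∣ 4 ^ m j := pow_dvd_pow 4 (m_mono hij)
  obtain ⟨k, hk⟩ := h1
  rw [hk, mul_assoc, Nat.add_mul_mod_self_left]
  exact S.P_mod c hij p hp

/-- offset in the hashed state -/
def aH (c : Bool) (i p : ℕ) : ℕ := co (!c) * d (S.v c i p) + 4 ^ (s i + S.th c i p)

theorem aH_le (c : Bool) (i p : ℕ) : S.aH c i p ≤ 2 * 4 ^ (s i + S.th c i p) := by
  unfold aH
  have h1 := three_d_lt (s i) _ (S.hv c i p)
  have h2 : 4 ^ s i ≤ 4 ^ (s i + S.th c i p) := Nat.pow_le_pow_right (by norm_num) (by omega)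
  have h3 : co (!c) * d (S.v c i p) ≤ 4 ^ s i := by
    cases c <;> simp <;> omega
  omega

theorem le_aH (c : Bool) (i p : ℕ) : 4 ^ (s i + S.th c i p) ≤ S.aH c i p := by
  unfold aH
  omega

/-- elements of level `i + 1` in terms of level `i` -/
theorem El_succ {c : Bool} {i a : ℕ} (h : a ∈ S.El c (i + 1)) :
    ∃ p ∈ S.P c i, ∃ w, a = p + 4 ^ m i * (S.aH c i p + co c * d w) := by
  obtain ⟨p', hp', u, hu, rfl⟩ := h
  have hp'' := hp'
  rw [S.hP c i] at hp''
  obtain ⟨p, hp, t, ht, hpe⟩ := mem_ext.1 hp''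
  refine ⟨p, hp, t + 2 ^ s i * u, ?_⟩
  have h1 : S.kap c (i + 1) p' = 4 ^ S.th c i p := by
    rw [hpe]
    simp only [kap]
    rw [Nat.add_mul_mod_self_left, Nat.mod_eq_of_lt (S.P_lt c i hp)]
  rw [h1, d_add _ _ _ ht, m_succ, pow_add, aH, pow_add, hpe]
  ring

/-- conversely -/
theorem mem_El_succ {c : Bool} {i p w : ℕ} (hp : p ∈ S.P c i)
    (hw : w < 2 ^ (s i + s (i + 1) + 2)) :
    p + 4 ^ m i * (S.aH c i p + co c * d w) ∈ S.El c (i + 1) := by
  set t := w % 2 ^ s i with ht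
  set u := w / 2 ^ s i with hu
  have htl : t < 2 ^ s i := Nat.mod_lt _ (by positivity)
  have hw2 : w = t + 2 ^ s i * u := (Nat.mod_add_div w (2 ^ s i)).symm
  have hp' : p + 4 ^ m i * (co c * d t + co (!c) * d (S.v c i p)) ∈ S.P c (i + 1) := by
    rw [S.hP c i]
    exact mem_ext.2 ⟨p, hp, t, htl, rfl⟩
  refine ⟨_, hp', u, ?_, ?_⟩
  · have h1 : u < 2 ^ (s (i + 1) + 2) := by
      rw [hu, Nat.div_lt_iff_lt_mul (by positivity), ← pow_add]
      have : s (i + 1) + 2 + s i = s i + s (i + 1) + 2 := by ring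
      rwa [this]
    exact h1.trans_le (Nat.pow_le_pow_right (by norm_num) (by omega))
  · have h1 : S.kap c (i + 1) (p + 4 ^ m i * (co c * d t + co (!c) * d (S.v c i p)))
        = 4 ^ S.th c i p := by
      simp only [kap]
      rw [Nat.add_mul_mod_self_left, Nat.mod_eq_of_lt (S.P_lt c i hp)]
    rw [h1, hw2, d_add _ _ _ htl, m_succ, pow_add, aH, pow_add]
    ring

/-- canonical offset at `n` -/
def alp (c : Bool) (i p n : ℕ) : ℕ :=
  if n < 16 * 4 ^ (S.th c i p + m (i + 1)) then S.kap c i p else S.aH c i p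

theorem kap_le (c : Bool) (i p : ℕ) : 4 ^ m i * S.kap c i p ≤ 4 ^ m (i + 1) := by
  rw [m_succ, pow_add]
  apply Nat.mul_le_mul_left
  cases i with
  | zero => exact Nat.one_le_pow _ _ (by norm_num)
  | succ i =>
    unfold kap
    apply Nat.pow_le_pow_right (by norm_num)
    have h1 := S.hth c i (p % 4 ^ m i)
    have h2 := el_mono (show i ≤ i + 1 by omega)
    unfold s
    omega

theorem alp_le (c : Bool) (i p n : ℕ) (hn : 16 * 4 ^ m (i + 1) ≤ n) :
    8 * (4 ^ m i * S.alp c i p n) ≤ n := by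
  unfold alp
  split_ifs with h
  · have := S.kap_le c i p
    omega
  · push Not at h
    have h1 := S.aH_le c i p
    have h2 : 4 ^ m i * S.aH c i p ≤ 4 ^ m i * (2 * 4 ^ (s i + S.th c i p)) :=
      Nat.mul_le_mul_left _ h1
    have h3 : 4 ^ m i * (2 * 4 ^ (s i + S.th c i p)) = 2 * 4 ^ (S.th c i p + m (i + 1)) := by
      rw [m_succ, pow_add, pow_add, pow_add]
      ring
    omega

/-- membership of the canonical elements -/
theorem canon_mem (c : Bool) (i p n w : ℕ) (hp : p ∈ S.P c i)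
    (hn : n < 16 * 4 ^ m (i + 2)) (hw : 4 ^ m i * d w ≤ n) :
    p + 4 ^ m i * (S.alp c i p n + co c * d w) ∈ S.A := by
  unfold alp
  split_ifs with h
  · refine ⟨c, i, p, hp, w, ?_, rfl⟩
    apply lt_of_d_lt
    have h1 : 4 ^ m i * d w < 4 ^ m i * 4 ^ (s i + S.th c i p + 2) := by
      refine hw.trans_lt (h.trans_le (le_of_eq ?_))
      rw [m_succ]
      simp only [pow_add]
      ring
    exact Nat.lt_of_mul_lt_mul_left h1
  · refine ⟨c, i + 1, S.mem_El_succ hp ?_⟩
    apply lt_of_d_lt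
    have h1 : 4 ^ m i * d w < 4 ^ m i * 4 ^ (s i + s (i + 1) + 2) := by
      refine hw.trans_lt (hn.trans_le (le_of_eq ?_))
      rw [m_succ, m_succ]
      simp only [pow_add]
      ring
    exact Nat.lt_of_mul_lt_mul_left h1

/-- the canonical representation -/
theorem cover (i n : ℕ) (hn : 16 * 4 ^ m (i + 1) ≤ n) (hn2 : n < 16 * 4 ^ m (i + 2)) :
    ∃ p ∈ S.P true i, ∃ q ∈ S.P false i, ∃ x y : ℕ,
      (p + 4 ^ m i * (S.alp true i p n + co true * d x))
        + (q + 4 ^ m i * (S.alp false i q n + co false * d y)) = n ∧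
      p + 4 ^ m i * (S.alp true i p n + co true * d x) ∈ S.A ∧
      q + 4 ^ m i * (S.alp false i q n + co false * d y) ∈ S.A := by
  obtain ⟨p, hp, q, hq, hpq⟩ := S.decode_exists i n
  have hpl := S.P_lt true i hp
  have hql := S.P_lt false i hq
  have h1 := S.alp_le true i p n hn
  have h2 := S.alp_le false i q n hn
  have h3 : 4 ^ m i ≤ 4 ^ m (i + 1) := Nat.pow_le_pow_right (by norm_num) (m_mono (by omega))
  set M := 4 ^ m i with hM
  have hM0 : 0 < M := by positivity
  set n' := n - (p + q + M * (S.alp true i p n + S.alp false i q n)) with hn'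
  have h4 : p + q + M * (S.alp true i p n + S.alp false i q n) ≤ n := by
    rw [mul_add]
    omega
  have h5 : M ∣ n' := by
    have h6 : p + q + M * (S.alp true i p n + S.alp false i q n) ≡ n [MOD M] := by
      unfold Nat.ModEq
      rw [Nat.add_mul_mod_self_left]
      exact hpq
    exact (Nat.modEq_iff_dvd' h4).1 h6
  obtain ⟨R, hR⟩ := h5
  obtain ⟨x, y, hxy⟩ := exists_split R
  have h7 : n = p + q + M * (S.alp true i p n + S.alp false i q n) + M * (d x + 2 * d y) := by
    rw [hxy, ← hR]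
    omega
  have h8 : M * d x ≤ n := by
    have : M * (d x + 2 * d y) = M * d x + 2 * (M * d y) := by ring
    omega
  have h9 : M * d y ≤ n := by
    have : M * (d x + 2 * d y) = M * d x + 2 * (M * d y) := by ring
    omega
  refine ⟨p, hp, q, hq, x, y, ?_, S.canon_mem true i p n x hp hn2 h8,
    S.canon_mem false i q n y hq hn2 h9⟩
  simp only [co_true, co_false, one_mul]
  conv_rhs => rw [h7]
  ring

end Sys

end Pool.Agent.Y940.HB
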