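import Mathlib
import Pool.Agent.Y940.HB.Sys
/-!
# Counting: thinness and multiplicities
-/

set_option autoImplicit false

open Finset

open scoped Classical in
/-- counting function -/
noncomputable def Pool.Agent.Y940.HB.cnt (B : Set ℕ) (X : ℕ) : ℕ :=
  ((range X).filter (fun a => a ∈ B)).card

namespace Pool.Agent.Y940.HB

/-- `r_A(n)`: the number of ordered pairs of elements of `A` with sum `n` -/
noncomputable def rep (A : Set ℕ) (n : ℕ) : ℕ :=
  {p : ℕ × ℕ | p.1 ∈ A ∧ p.2 ∈ A ∧ p.1 + p.2 = n}.ncard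

theorem sum_two_pow (K : ℕ) : ∑ h ∈ range K, 2 ^ h ≤ 2 ^ K := by
  induction K with
  | zero => simp
  | succ K ih => rw [sum_range_succ, pow_succ]; omega

theorem sum_four_pow (K : ℕ) : ∑ h ∈ range K, 4 ^ h ≤ 4 ^ K := by
  induction K with
  | zero => simp
  | succ K ih => rw [sum_range_succ, pow_succ]; omega

theorem cnt_le_of_subset {B : Set ℕ} {X : ℕ} (F : Finset ℕ) (h : ∀ a ∈ B, a < X → a ∈ F) :
    cnt B X ≤ F.card := by
  classical
  unfold cnt
  apply card_le_card
  intro a ha
  rw [mem_filter, mem_range] at ha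
  exact h a ha.2 ha.1

namespace Sys

variable (S : Sys)

theorem cntEl_le (c : Bool) (j k : ℕ) : cnt (S.El c j) (4 ^ k) ≤ 2 ^ k := by
  by_cases hk : m j ≤ k
  · calc cnt (S.El c j) (4 ^ k)
        ≤ ((S.P c j ×ˢ range (2 ^ (k - m j))).image
            (fun x => x.1 + 4 ^ m j * (S.kap c j x.1 + co c * d x.2))).card := by
          apply cnt_le_of_subset
          rintro a ⟨p, hp, u, hu, rfl⟩ hlt
          refine mem_image.2 ⟨(p, u), mem_product.2 ⟨hp, mem_range.2 ?_⟩, rfl⟩
          simp only
          apply lt_of_d_lt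
          have h1 : 4 ^ m j * d u < 4 ^ m j * 4 ^ (k - m j) := by
            rw [← pow_add, Nat.add_sub_cancel' hk]
            refine lt_of_le_of_lt ?_ hlt
            have h2 := co_pos c
            calc 4 ^ m j * d u ≤ 4 ^ m j * (S.kap c j p + co c * d u) := by
                  apply Nat.mul_le_mul_left
                  nlinarith
              _ ≤ _ := Nat.le_add_left _ _
          exact Nat.lt_of_mul_lt_mul_left h1
      _ ≤ (S.P c j ×ˢ range (2 ^ (k - m j))).card := card_image_le
      _ = 2 ^ k := by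
          rw [card_product, S.P_card, card_range, ← pow_add, Nat.add_sub_cancel' hk]
  · push Not at hk
    calc cnt (S.El c j) (4 ^ k) ≤ (∅ : Finset ℕ).card := by
          apply cnt_le_of_subset
          intro a ha hlt
          have h1 := S.El_ge ha
          have h2 : 4 ^ k ≤ 4 ^ m j := Nat.pow_le_pow_right (by norm_num) hk.le
          omega
      _ ≤ _ := by simp

theorem cntEl_total (c : Bool) (j X : ℕ) : cnt (S.El c j) X ≤ 2 ^ (m (j + 1) + el j + 1) := by
  calc cnt (S.El c j) X
      ≤ ((S.P c j ×ˢ range (2 ^ (s j + el j + 1))).image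
          (fun x => x.1 + 4 ^ m j * (S.kap c j x.1 + co c * d x.2))).card := by
        apply cnt_le_of_subset
        rintro a ⟨p, hp, u, hu, rfl⟩ _
        refine mem_image.2 ⟨(p, u), mem_product.2 ⟨hp, mem_range.2 ?_⟩, rfl⟩
        simp only
        refine hu.trans_le (Nat.pow_le_pow_right (by norm_num) ?_)
        have := S.hth c j p
        omega
    _ ≤ (S.P c j ×ˢ range (2 ^ (s j + el j + 1))).card := card_image_le
    _ = _ := by
        rw [card_product, S.P_card, card_range, ← pow_add, m_succ]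
        congr 1
        ring

/-- elements of level less than `i` -/
def Low (i : ℕ) : Set ℕ := {a | ∃ c, ∃ j < i, a ∈ S.El c j}

theorem cntLow (i X : ℕ) : cnt (S.Low i) X ≤ 2 ^ (m i + el i + 3) := by
  classical
  induction i with
  | zero =>
    calc cnt (S.Low 0) X ≤ (∅ : Finset ℕ).card := by
          apply cnt_le_of_subset
          rintro a ⟨c, j, hj, _⟩ _
          omega
      _ ≤ _ := by simp
  | succ i ih =>
    calc cnt (S.Low (i + 1)) X
        ≤ (((range X).filter (fun a => a ∈ S.Low i)) ∪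
            (((range X).filter (fun a => a ∈ S.El true i)) ∪
            ((range X).filter (fun a => a ∈ S.El false i)))).card := by
          apply cnt_le_of_subset
          rintro a ⟨c, j, hj, ha⟩ hX
          simp only [mem_union, mem_filter, mem_range]
          rcases Nat.lt_succ_iff_lt_or_eq.1 hj with h | h
          · exact Or.inl ⟨hX, c, j, h, ha⟩
          · subst h
            cases c
            · exact Or.inr (Or.inr ⟨hX, ha⟩)
            · exact Or.inr (Or.inl ⟨hX, ha⟩)
      _ ≤ cnt (S.Low i) X + (cnt (S.El true i) X + cnt (S.El false i) X) := by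
          refine (card_union_le _ _).trans ?_
          exact Nat.add_le_add_left (card_union_le _ _) _
      _ ≤ 2 ^ (m i + el i + 3) + (2 ^ (m (i + 1) + el i + 1) + 2 ^ (m (i + 1) + el i + 1)) :=
          Nat.add_le_add ih (Nat.add_le_add (S.cntEl_total _ _ _) (S.cntEl_total _ _ _))
      _ ≤ 2 ^ (m (i + 1) + el i + 2) + (2 ^ (m (i + 1) + el i + 1) + 2 ^ (m (i + 1) + el i + 1)) := by
          apply Nat.add_le_add_right
          apply Nat.pow_le_pow_right (by norm_num)
          have := s_ge i
          rw [m_succ]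
          omega
      _ = 2 ^ (m (i + 1) + el i + 3) := by
          rw [pow_succ, pow_succ, pow_succ]
          ring
      _ ≤ _ := by
          apply Nat.pow_le_pow_right (by norm_num)
          have := el_mono (show i ≤ i + 1 by omega)
          omega

theorem cntLow' (i X : ℕ) : cnt (S.Low i) X ≤ 2 ^ (m (i + 1) + 1) := by
  refine (S.cntLow i X).trans (Nat.pow_le_pow_right (by norm_num) ?_)
  have := el_ge i
  rw [m_succ]
  unfold s
  omega

/-- The set is thin. -/
theorem thin (k : ℕ) : cnt S.A (4 ^ k) ≤ 2 ^ (k + 3) := by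
  classical
  obtain ⟨i, hi1, hi2⟩ : ∃ i, m i ≤ k ∧ k < m (i + 1) := by
    have hex : ∃ j, k < m (j + 1) := ⟨k, by have := m_ge (k + 1); omega⟩
    refine ⟨Nat.find hex, ?_, Nat.find_spec hex⟩
    rcases Nat.eq_zero_or_pos (Nat.find hex) with h | h
    · rw [h]
      exact Nat.zero_le _
    · have h2 := Nat.find_min hex (m := Nat.find hex - 1) (by omega)
      rw [Nat.sub_add_cancel h] at h2
      omega
  calc cnt S.A (4 ^ k)
      ≤ (((range (4 ^ k)).filter (fun a => a ∈ S.Low (i - 1))) ∪
          ((((range (4 ^ k)).filter (fun a => a ∈ S.El true (i - 1))) ∪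
          ((range (4 ^ k)).filter (fun a => a ∈ S.El false (i - 1)))) ∪
          (((range (4 ^ k)).filter (fun a => a ∈ S.El true i)) ∪
          ((range (4 ^ k)).filter (fun a => a ∈ S.El false i))))).card := by
        apply cnt_le_of_subset
        rintro a ⟨c, j, ha⟩ hX
        simp only [mem_union, mem_filter, mem_range]
        have hj : j ≤ i := by
          by_contra hcon
          push Not at hcon
          have h1 := S.El_ge ha
          have h2 : 4 ^ k ≤ 4 ^ m j :=
            Nat.pow_le_pow_right (by norm_num) (hi2.le.trans (m_mono hcon))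
          omega
        have h3 : j < i - 1 ∨ j = i - 1 ∨ j = i := by omega
        rcases h3 with h | h | h
        · exact Or.inl ⟨hX, c, j, h, ha⟩
        · subst h
          cases c
          · exact Or.inr (Or.inl (Or.inr ⟨hX, ha⟩))
          · exact Or.inr (Or.inl (Or.inl ⟨hX, ha⟩))
        · subst h
          cases c
          · exact Or.inr (Or.inr (Or.inr ⟨hX, ha⟩))
          · exact Or.inr (Or.inr (Or.inl ⟨hX, ha⟩))
    _ ≤ cnt (S.Low (i - 1)) (4 ^ k) + ((cnt (S.El true (i - 1)) (4 ^ k) +
          cnt (S.El false (i - 1)) (4 ^ k)) + (cnt (S.El true i) (4 ^ k) +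
          cnt (S.El false i) (4 ^ k))) := by
        refine (card_union_le _ _).trans (Nat.add_le_add_left ?_ _)
        refine (card_union_le _ _).trans (Nat.add_le_add ?_ ?_)
        · exact card_union_le _ _
        · exact card_union_le _ _
    _ ≤ 2 * 2 ^ k + ((2 ^ k + 2 ^ k) + (2 ^ k + 2 ^ k)) := by
        refine Nat.add_le_add ?_ (Nat.add_le_add (Nat.add_le_add (S.cntEl_le _ _ _)
          (S.cntEl_le _ _ _)) (Nat.add_le_add (S.cntEl_le _ _ _) (S.cntEl_le _ _ _)))
        rcases Nat.eq_zero_or_pos i with h | h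
        · subst h
          calc cnt (S.Low (0 - 1)) (4 ^ k) ≤ (∅ : Finset ℕ).card := by
                apply cnt_le_of_subset
                rintro a ⟨c, j, hj, _⟩ _
                omega
            _ ≤ _ := by simp
        · have h1 := S.cntLow' (i - 1) (4 ^ k)
          rw [Nat.sub_add_cancel h] at h1
          refine h1.trans ?_
          rw [pow_succ, mul_comm]
          exact Nat.mul_le_mul_left _ (Nat.pow_le_pow_right (by norm_num) hi1)
    _ ≤ 2 ^ (k + 3) := by
        rw [pow_add]
        omega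

/-- pairs of residues -/
def prs (c c' : Bool) (j n : ℕ) : Finset (ℕ × ℕ) :=
  (S.P c j ×ˢ S.P c' j).filter (fun q => (q.1 + q.2) % 4 ^ m j = n % 4 ^ m j)

theorem one_le_zb (j : ℕ) : 1 ≤ zb j := by
  unfold zb
  have : 0 < 4 * 2 ^ s j * (j + 1) * (j + 1 + 2 * m j) := by positivity
  exact this

theorem card_prs (c c' : Bool) (j n : ℕ) : (S.prs c c' j n).card ≤ zb j := by
  by_cases h : c = c'
  · subst h
    exact S.hZ c j n
  · refine le_trans ?_ (one_le_zb j)
    rw [card_le_one]
    rintro ⟨p, q⟩ h1 ⟨p', q'⟩ h2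
    simp only [prs, mem_filter, mem_product] at h1 h2
    have h3 : p + q ≡ p' + q' [MOD 4 ^ m j] := h1.2.trans h2.2.symm
    cases c <;> cases c'
    · exact absurd rfl h
    · rw [add_comm p q, add_comm p' q'] at h3
      have := S.decode_unique j h1.1.2 h1.1.1 h2.1.2 h2.1.1 h3
      rw [this.1, this.2]
    · have := S.decode_unique j h1.1.1 h1.1.2 h2.1.1 h2.1.2 h3
      rw [this.1, this.2]
    · exact absurd rfl h

/-- candidates for representations with first element of level `j` -/
def cand (n j : ℕ) (cc : Bool × Bool) : Finset (ℕ × ℕ) :=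
  (S.prs cc.1 cc.2 j n ×ˢ range (2 ^ (s j + el j + 1))).image (fun x =>
    (x.1.1 + 4 ^ m j * (S.kap cc.1 j x.1.1 + co cc.1 * d x.2),
      n - (x.1.1 + 4 ^ m j * (S.kap cc.1 j x.1.1 + co cc.1 * d x.2))))

theorem card_cand (n j : ℕ) (cc : Bool × Bool) :
    (S.cand n j cc).card ≤ zb j * 2 ^ (s j + el j + 1) := by
  refine card_image_le.trans ?_
  rw [card_product, card_range]
  exact Nat.mul_le_mul_right _ (S.card_prs _ _ _ _)

theorem mem_cand {n a b j j' : ℕ} {c c' : Bool} (ha : a ∈ S.El c j) (hb : b ∈ S.El c' j')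
    (hj : j ≤ j') (hab : a + b = n) : (a, b) ∈ S.cand n j (c, c') := by
  have ha' := S.El_mod le_rfl ha
  have hb' := S.El_mod hj hb
  obtain ⟨p, hp, u, hu, hae⟩ := ha
  have hpa : a % 4 ^ m j = p := by
    rw [hae, Nat.add_mul_mod_self_left, Nat.mod_eq_of_lt (S.P_lt c j hp)]
  refine mem_image.2 ⟨((p, b % 4 ^ m j), u), ?_, ?_⟩
  · simp only [mem_product, prs, mem_filter, mem_range]
    refine ⟨⟨⟨hp, hb'⟩, ?_⟩, ?_⟩
    · rw [← hpa, ← Nat.add_mod, hab]
    · refine hu.trans_le (Nat.pow_le_pow_right (by norm_num) ?_)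
      have := S.hth c j p
      omega
  · simp only [← hae]
    rw [Prod.mk.injEq]
    exact ⟨rfl, by omega⟩

/-- bound for the number of representations -/
theorem rep_le (J n : ℕ) (hn : n < 4 ^ m J) :
    rep S.A n ≤ ∑ j ∈ range J, 8 * (zb j * 2 ^ (s j + el j + 1)) := by
  classical
  let F : Finset (ℕ × ℕ) := (range J).biUnion fun j => (univ : Finset (Bool × Bool)).biUnion
    fun cc => S.cand n j cc ∪ (S.cand n j cc).image Prod.swap
  have hsub : {p : ℕ × ℕ | p.1 ∈ S.A ∧ p.2 ∈ S.A ∧ p.1 + p.2 = n} ⊆ (F : Set (ℕ × ℕ)) := by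
    rintro ⟨a, b⟩ ⟨⟨c, j, ha⟩, ⟨c', j', hb⟩, hab⟩
    simp only at ha hb hab
    have hjl : ∀ {c j x}, x ∈ S.El c j → x ≤ n → j < J := by
      intro c j x hx hxn
      by_contra hcon
      push Not at hcon
      have h1 := S.El_ge hx
      have h2 : 4 ^ m J ≤ 4 ^ m j := Nat.pow_le_pow_right (by norm_num) (m_mono hcon)
      omega
    simp only [F, coe_biUnion, Set.mem_iUnion, mem_coe, coe_union, mem_range, mem_univ,
      Set.mem_union, exists_prop, true_and, mem_image]
    rcases le_total j j' with h | h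
    · exact ⟨j, hjl ha (by omega), (c, c'), Or.inl (S.mem_cand ha hb h hab)⟩
    · exact ⟨j', hjl hb (by omega), (c', c), Or.inr ⟨(b, a), S.mem_cand hb ha h (by omega), rfl⟩⟩
  have h1 : rep S.A n ≤ F.card := by
    unfold rep
    rw [← Set.ncard_coe_finset]
    exact Set.ncard_le_ncard hsub (finite_toSet F)
  refine h1.trans (card_biUnion_le.trans (sum_le_sum fun j _ => ?_))
  refine card_biUnion_le.trans ?_
  calc ∑ cc ∈ (univ : Finset (Bool × Bool)), (S.cand n j cc ∪ (S.cand n j cc).image Prod.swap).card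
      ≤ ∑ cc ∈ (univ : Finset (Bool × Bool)), 2 * (zb j * 2 ^ (s j + el j + 1)) := by
        apply sum_le_sum
        intro cc _
        refine (card_union_le _ _).trans ?_
        have h2 := S.card_cand n j cc
        have h3 : ((S.cand n j cc).image Prod.swap).card ≤ (S.cand n j cc).card := card_image_le
        omega
    _ = 8 * (zb j * 2 ^ (s j + el j + 1)) := by
        rw [sum_const]
        simp
        ring

end Sys

theorem m_le (i : ℕ) : m i ≤ 2 * i * el i := by
  induction i with
  | zero => simp [m]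
  | succ i ih =>
    rw [m_succ]
    have h1 := el_mono (show i ≤ i + 1 by omega)
    unfold s
    nlinarith

theorem term_le (j : ℕ) : zb j * 2 ^ (s j + el j + 1) ≤ 40 * 65536 * (j + 1) ^ 3 := by
  have h1 : j + 1 + 2 * m j ≤ 5 * (j + 1) * 2 ^ el j := by
    have h2 := m_le j
    have h3 : el j < 2 ^ el j := Nat.lt_two_pow_self
    have h4 : j * el j ≤ j * 2 ^ el j := Nat.mul_le_mul_left _ h3.le
    have h5 : 1 ≤ 2 ^ el j := Nat.one_le_two_pow
    nlinarith
  have h2 := pow_el j
  calc zb j * 2 ^ (s j + el j + 1)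
      = 8 * 2 ^ (5 * el j) * (j + 1) * (j + 1 + 2 * m j) := by
        unfold zb s
        have e1 : 2 ^ (2 * el j + el j + 1) = 2 * 2 ^ (3 * el j) := by
          rw [pow_succ]
          ring_nf
        rw [e1]
        have e2 : 2 ^ (5 * el j) = 2 ^ (2 * el j) * 2 ^ (3 * el j) := by
          rw [← pow_add]
          ring_nf
        rw [e2]
        ring
    _ ≤ 8 * 2 ^ (5 * el j) * (j + 1) * (5 * (j + 1) * 2 ^ el j) := Nat.mul_le_mul_left _ h1
    _ = 40 * 2 ^ (6 * el j) * (j + 1) ^ 2 := by
        have e2 : 2 ^ (6 * el j) = 2 ^ (5 * el j) * 2 ^ (el j) := by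
          rw [← pow_add]
          ring_nf
        rw [e2]
        ring
    _ ≤ 40 * 256 ^ el j * (j + 1) ^ 2 := by
        apply Nat.mul_le_mul_right
        apply Nat.mul_le_mul_left
        have : 256 ^ el j = 2 ^ (8 * el j) := by
          rw [pow_mul]
          norm_num
        rw [this]
        exact Nat.pow_le_pow_right (by norm_num) (by omega)
    _ ≤ 40 * (65536 * (j + 1)) * (j + 1) ^ 2 := by
        apply Nat.mul_le_mul_right
        exact Nat.mul_le_mul_left _ h2
    _ = 40 * 65536 * (j + 1) ^ 3 := by ring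

namespace Sys

variable (S : Sys)

theorem rep_le' (J n : ℕ) (hn : n < 4 ^ m J) : rep S.A n ≤ 320 * 65536 * J ^ 4 := by
  refine (S.rep_le J n hn).trans ?_
  calc ∑ j ∈ range J, 8 * (zb j * 2 ^ (s j + el j + 1))
      ≤ ∑ j ∈ range J, 320 * 65536 * J ^ 3 := by
        apply sum_le_sum
        intro j hj
        have h1 := term_le j
        have h2 : (j + 1) ^ 3 ≤ J ^ 3 := Nat.pow_le_pow_left (mem_range.1 hj) 3
        omega
    _ = 320 * 65536 * J ^ 4 := by
        rw [sum_const, card_range, smul_eq_mul]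
        ring

theorem rep_le_log (n : ℕ) (hn : 2 ≤ n) :
    (rep S.A n : ℝ) ≤ 320 * 65536 * 3 ^ 4 * Real.log n ^ 4 := by
  classical
  have hex : ∃ J, n < 4 ^ m J := by
    refine ⟨n, ?_⟩
    have h1 := m_ge n
    have h2 : n < 4 ^ n := Nat.lt_pow_self (by norm_num)
    exact h2.trans_le (Nat.pow_le_pow_right (by norm_num) (by omega))
  set J := Nat.find hex with hJ
  have h1 : n < 4 ^ m J := Nat.find_spec hex
  have hJ0 : 1 ≤ J := by
    rcases Nat.eq_zero_or_pos J with h | h
    · rw [h] at h1
      simp only [m, pow_zero] at h1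
      omega
    · exact h
  have h2 : 4 ^ m (J - 1) ≤ n := by
    have := Nat.find_min hex (m := J - 1) (by omega)
    omega
  have h3 : (J : ℝ) ≤ 3 * Real.log n := by
    have hlog2 : (0.69 : ℝ) < Real.log 2 := by have := Real.log_two_gt_d9; linarith
    have hln : Real.log 2 ≤ Real.log n := Real.log_le_log (by norm_num) (by exact_mod_cast hn)
    have h4 : (4 : ℝ) ^ (J - 1) ≤ n := by
      have h5 : 4 ^ (J - 1) ≤ 4 ^ m (J - 1) := by
        apply Nat.pow_le_pow_right (by norm_num)
        have := m_ge (J - 1)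
        omega
      exact_mod_cast h5.trans h2
    have h6 := Real.log_le_log (by positivity) h4
    rw [Real.log_pow] at h6
    have h7 : Real.log 4 = 2 * Real.log 2 := by
      have : (4 : ℝ) = 2 ^ 2 := by norm_num
      rw [this, Real.log_pow]
      norm_num
    rw [h7, Nat.cast_sub hJ0] at h6
    push_cast at h6
    have h8 : (1 : ℝ) ≤ J := by exact_mod_cast hJ0
    nlinarith
  have h4 : (rep S.A n : ℝ) ≤ 320 * 65536 * (J : ℝ) ^ 4 := by
    exact_mod_cast S.rep_le' J n h1
  calc (rep S.A n : ℝ) ≤ 320 * 65536 * (J : ℝ) ^ 4 := h4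
    _ ≤ 320 * 65536 * (3 * Real.log n) ^ 4 := by gcongr
    _ = 320 * 65536 * 3 ^ 4 * Real.log n ^ 4 := by ring

end Sys

end Pool.Agent.Y940.HB
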