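import Mathlib
import Pool.Agent.Y940.HB.Count
/-!
# The exceptional integers
-/

set_option autoImplicit false

open Finset

namespace Pool.Agent.Y940.HB

theorem el_le (j : ℕ) : el j ≤ j + 2 := by
  unfold el
  have := Nat.log_lt_self 256 (x := j + 1) (by omega)
  omega

theorem fib_el (j : ℕ) : (2 ^ m j / el j + 1) * el j ≤ 3 * 2 ^ m j := by
  have h1 : 2 ^ m j / el j * el j ≤ 2 ^ m j := Nat.div_mul_le_self _ _
  have h2 : el j ≤ 2 * 2 ^ m j := by
    have h3 := el_le j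
    have h4 : j < 2 ^ j := Nat.lt_two_pow_self
    have h5 : 2 ^ j ≤ 2 ^ m j := Nat.pow_le_pow_right (by norm_num) (by have := m_ge j; omega)
    omega
  rw [add_mul, one_mul]
  omega

theorem nine_pow (e : ℕ) : e * 9 ^ e ≤ 16 ^ e := by
  induction e with
  | zero => simp
  | succ e ih =>
    rcases Nat.lt_or_ge e 2 with h | h
    · interval_cases e <;> norm_num
    · rw [pow_succ, pow_succ]
      have h9 : 0 < 9 ^ e := pow_pos (by norm_num) e
      nlinarith

theorem card_sums (N U V : Finset ℕ) (h : ∀ n ∈ N, ∃ a ∈ U, ∃ b ∈ V, a + b = n) :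
    N.card ≤ U.card * V.card := by
  rw [← card_product]
  refine (card_le_card ?_).trans (card_image_le (s := U ×ˢ V) (f := fun x => x.1 + x.2))
  intro n hn
  obtain ⟨a, ha, b, hb, hab⟩ := h n hn
  exact mem_image.2 ⟨(a, b), mem_product.2 ⟨ha, hb⟩, hab⟩

namespace Sys

variable (S : Sys)

/-- elements of level `i + 2` -/
def Top (i : ℕ) : Set ℕ := {a | ∃ c, a ∈ S.El c (i + 2)}

/-- offsets -/
def off (c : Bool) (i p : ℕ) (σ : Bool) : ℕ := if σ then S.kap c i p else S.aH c i p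

/-- elements of level `i` or `i + 1` -/
def Mid (c : Bool) (i : ℕ) : Set ℕ :=
  {a | ∃ p ∈ S.P c i, ∃ w σ, a = p + 4 ^ m i * (S.off c i p σ + co c * d w)}

/-- non-canonical elements, first kind -/
def BadU (c : Bool) (i n : ℕ) : Set ℕ :=
  {a | ∃ p ∈ S.P c i, ∃ u < 2 ^ (s i + S.th c i p + 2),
    a = p + 4 ^ m i * (S.kap c i p + co c * d u) ∧ 16 * 4 ^ (S.th c i p + m (i + 1)) ≤ n}

/-- non-canonical elements, second kind -/
def BadH (c : Bool) (i n : ℕ) : Set ℕ :=
  {a | ∃ p ∈ S.P c i, ∃ w,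
    a = p + 4 ^ m i * (S.aH c i p + co c * d w) ∧ n < 16 * 4 ^ (S.th c i p + m (i + 1))}

/-- canonical elements -/
def Can (c : Bool) (i n : ℕ) : Set ℕ :=
  {a | ∃ p ∈ S.P c i, ∃ x, a = p + 4 ^ m i * (S.alp c i p n + co c * d x)}

theorem classify {i n a : ℕ} (ha : a ∈ S.A) (han : a ≤ n) (hn : n < 16 * 4 ^ m (i + 2)) :
    a ∈ S.Low i ∨ a ∈ S.Top i ∨
      ∃ c, a ∈ S.Mid c i ∧ (a ∈ S.BadU c i n ∨ a ∈ S.BadH c i n ∨ a ∈ S.Can c i n) := by
  obtain ⟨c, j, ha⟩ := ha
  rcases Nat.lt_or_ge j i with h | h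
  · exact Or.inl ⟨c, j, h, ha⟩
  · rcases Nat.lt_or_ge (i + 2) j with h2 | h2
    · exfalso
      have h3 := S.El_ge ha
      have h4 : 4 ^ m (i + 3) ≤ 4 ^ m j := Nat.pow_le_pow_right (by norm_num) (m_mono h2)
      have h5 : 4 ^ (m (i + 2) + 4) ≤ 4 ^ m (i + 3) := by
        apply Nat.pow_le_pow_right (by norm_num)
        rw [m_succ (i + 2)]
        have := s_ge (i + 2)
        omega
      rw [pow_add] at h5
      omega
    · have h3 : j = i ∨ j = i + 1 ∨ j = i + 2 := by omega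
      rcases h3 with h3 | h3 | h3
      · subst h3
        obtain ⟨p, hp, u, hu, hae⟩ := ha
        refine Or.inr (Or.inr ⟨c, ⟨p, hp, u, true, by simpa [off] using hae⟩, ?_⟩)
        by_cases h4 : n < 16 * 4 ^ (S.th c j p + m (j + 1))
        · refine Or.inr (Or.inr ⟨p, hp, u, ?_⟩)
          rw [alp, if_pos h4]
          exact hae
        · exact Or.inl ⟨p, hp, u, hu, hae, by omega⟩
      · subst h3
        obtain ⟨p, hp, w, hae⟩ := S.El_succ ha
        refine Or.inr (Or.inr ⟨c, ⟨p, hp, w, false, by simpa [off] using hae⟩, ?_⟩)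
        by_cases h4 : n < 16 * 4 ^ (S.th c i p + m (i + 1))
        · exact Or.inr (Or.inl ⟨p, hp, w, hae, h4⟩)
        · refine Or.inr (Or.inr ⟨p, hp, w, ?_⟩)
          rw [alp, if_neg h4]
          exact hae
      · subst h3
        exact Or.inr (Or.inl ⟨c, ha⟩)

theorem can_unique {i n a b a' b' : ℕ} (ha : a ∈ S.Can true i n) (hb : b ∈ S.Can false i n)
    (ha' : a' ∈ S.Can true i n) (hb' : b' ∈ S.Can false i n) (h : a + b = n)
    (h' : a' + b' = n) : a = a' ∧ b = b' := by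
  obtain ⟨p, hp, x, rfl⟩ := ha
  obtain ⟨q, hq, y, rfl⟩ := hb
  obtain ⟨p', hp', x', rfl⟩ := ha'
  obtain ⟨q', hq', y', rfl⟩ := hb'
  have h1 : p + q ≡ n [MOD 4 ^ m i] := by
    have e : p + 4 ^ m i * (S.alp true i p n + co true * d x) +
      (q + 4 ^ m i * (S.alp false i q n + co false * d y)) = p + q + 4 ^ m i *
      ((S.alp true i p n + co true * d x) + (S.alp false i q n + co false * d y)) := by ring
    rw [e] at h
    unfold Nat.ModEq
    rw [← h, Nat.add_mul_mod_self_left]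
  have h2 : p' + q' ≡ n [MOD 4 ^ m i] := by
    have e : p' + 4 ^ m i * (S.alp true i p' n + co true * d x') +
      (q' + 4 ^ m i * (S.alp false i q' n + co false * d y')) = p' + q' + 4 ^ m i *
      ((S.alp true i p' n + co true * d x') + (S.alp false i q' n + co false * d y')) := by ring
    rw [e] at h'
    unfold Nat.ModEq
    rw [← h', Nat.add_mul_mod_self_left]
  obtain ⟨rfl, rfl⟩ := S.decode_unique i hp hq hp' hq' (h1.trans h2.symm)
  have h3 : 4 ^ m i * (d x + 2 * d y) = 4 ^ m i * (d x' + 2 * d y') := by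
    have e1 : p + 4 ^ m i * (S.alp true i p n + co true * d x) +
      (q + 4 ^ m i * (S.alp false i q n + co false * d y)) = p + q + 4 ^ m i *
      (S.alp true i p n + S.alp false i q n) + 4 ^ m i * (d x + 2 * d y) := by
      simp only [co_true, co_false]
      ring
    have e2 : p + 4 ^ m i * (S.alp true i p n + co true * d x') +
      (q + 4 ^ m i * (S.alp false i q n + co false * d y')) = p + q + 4 ^ m i *
      (S.alp true i p n + S.alp false i q n) + 4 ^ m i * (d x' + 2 * d y') := by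
      simp only [co_true, co_false]
      ring
    rw [e1] at h
    rw [e2] at h'
    omega
  have h4 := split_unique (Nat.eq_of_mul_eq_mul_left (by positivity) h3)
  rw [h4.1, h4.2]
  exact ⟨rfl, rfl⟩

/-- the exceptional event -/
def Exc (i n : ℕ) : Prop := ∃ a ∈ S.A, ∃ b ∈ S.A, a + b = n ∧
  (a ∈ S.Low i ∨ a ∈ S.Top i ∨ (∃ c, a ∈ S.BadU c i n) ∨ (∃ c, a ∈ S.BadH c i n) ∨
    (∃ c, a ∈ S.Mid c i ∧ b ∈ S.Mid c i) ∨ a = b)

theorem rep_eq_two {i n : ℕ} (h1 : 16 * 4 ^ m (i + 1) ≤ n) (h2 : n < 16 * 4 ^ m (i + 2))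
    (hE : ¬ S.Exc i n) : rep S.A n = 2 := by
  obtain ⟨p, hp, q, hq, x, y, hsum, hA1, hA2⟩ := S.cover i n h1 h2
  set a0 := p + 4 ^ m i * (S.alp true i p n + co true * d x) with ha0
  set b0 := q + 4 ^ m i * (S.alp false i q n + co false * d y) with hb0
  have hC1 : a0 ∈ S.Can true i n := ⟨p, hp, x, rfl⟩
  have hC2 : b0 ∈ S.Can false i n := ⟨q, hq, y, rfl⟩
  have hne : a0 ≠ b0 := by
    intro h
    exact hE ⟨a0, hA1, b0, hA2, hsum, Or.inr (Or.inr (Or.inr (Or.inr (Or.inr h))))⟩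
  have key : ∀ a b, a ∈ S.A → b ∈ S.A → a + b = n →
      ∃ c, a ∈ S.Mid c i ∧ a ∈ S.Can c i n := by
    intro a b ha hb hab
    rcases S.classify (i := i) ha (by omega : a ≤ n) h2 with h | h | ⟨c, hM, h | h | h⟩
    · exact absurd ⟨a, ha, b, hb, hab, Or.inl h⟩ hE
    · exact absurd ⟨a, ha, b, hb, hab, Or.inr (Or.inl h)⟩ hE
    · exact absurd ⟨a, ha, b, hb, hab, Or.inr (Or.inr (Or.inl ⟨c, h⟩))⟩ hE
    · exact absurd ⟨a, ha, b, hb, hab, Or.inr (Or.inr (Or.inr (Or.inl ⟨c, h⟩)))⟩ hE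
    · exact ⟨c, hM, h⟩
  have hset : {p : ℕ × ℕ | p.1 ∈ S.A ∧ p.2 ∈ S.A ∧ p.1 + p.2 = n} = {(a0, b0), (b0, a0)} := by
    ext ⟨a, b⟩
    simp only [Set.mem_ofPred_eq, Set.mem_insert_iff, Set.mem_singleton_iff, Prod.mk.injEq]
    constructor
    · rintro ⟨ha, hb, hab⟩
      obtain ⟨c, hM, hC⟩ := key a b ha hb hab
      obtain ⟨c', hM', hC'⟩ := key b a hb ha (by omega)
      have hcc : c ≠ c' := by
        rintro rfl
        exact hE ⟨a, ha, b, hb, hab, Or.inr (Or.inr (Or.inr (Or.inr (Or.inl ⟨c, hM, hM'⟩))))⟩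
      cases c <;> cases c'
      · exact absurd rfl hcc
      · right
        have := S.can_unique hC' hC hC1 hC2 (by omega) hsum
        exact ⟨this.2, this.1⟩
      · left
        exact S.can_unique hC hC' hC1 hC2 hab hsum
      · exact absurd rfl hcc
    · rintro (⟨rfl, rfl⟩ | ⟨rfl, rfl⟩)
      · exact ⟨hA1, hA2, hsum⟩
      · exact ⟨hA2, hA1, by omega⟩
  unfold rep
  rw [hset]
  apply Set.ncard_pair
  intro h
  rw [Prod.mk.injEq] at h
  exact hne h.1

theorem rep_pos {i n : ℕ} (h1 : 16 * 4 ^ m (i + 1) ≤ n) (h2 : n < 16 * 4 ^ m (i + 2)) :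
    1 ≤ rep S.A n := by
  obtain ⟨p, hp, q, hq, x, y, hsum, hA1, hA2⟩ := S.cover i n h1 h2
  have hfin : {p : ℕ × ℕ | p.1 ∈ S.A ∧ p.2 ∈ S.A ∧ p.1 + p.2 = n}.Finite := by
    apply Set.Finite.subset (Set.finite_Iic n |>.prod (Set.finite_Iic n))
    rintro ⟨a, b⟩ ⟨_, _, h⟩
    simp only at h
    simp only [Set.mem_prod, Set.mem_Iic]
    omega
  exact (Set.ncard_pos hfin).2 ⟨(_, _), hA1, hA2, hsum⟩

section counting

open scoped Classical

/-- elements below `4 ^ k` -/
noncomputable def Ak (k : ℕ) : Finset ℕ := (range (4 ^ k)).filter (fun a => a ∈ S.A)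

theorem card_Ak (k : ℕ) : (S.Ak k).card ≤ 2 ^ (k + 3) := S.thin k

theorem mem_Ak {k a : ℕ} (ha : a ∈ S.A) (h : a < 4 ^ k) : a ∈ S.Ak k :=
  mem_filter.2 ⟨mem_range.2 h, ha⟩

theorem n1 (i k : ℕ) (hk : m (i + 1) + 2 ≤ k) (N : Finset ℕ) (hN : ∀ n ∈ N, n < 4 ^ k ∧
    ∃ a ∈ S.A, ∃ b ∈ S.A, a + b = n ∧ a ∈ S.Low i) : N.card * el i ≤ 16 * 4 ^ k := by
  have h1 : N.card ≤ ((range (4 ^ k)).filter (fun a => a ∈ S.Low i)).card * (S.Ak k).card := by
    apply card_sums
    intro n hn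
    obtain ⟨hnk, a, ha, b, hb, hab, hL⟩ := hN n hn
    exact ⟨a, mem_filter.2 ⟨mem_range.2 (by omega), hL⟩, b, S.mem_Ak hb (by omega), hab⟩
  have h2 : ((range (4 ^ k)).filter (fun a => a ∈ S.Low i)).card ≤ 2 ^ (m i + el i + 3) :=
    S.cntLow i (4 ^ k)
  have h3 : el i ≤ 2 ^ el i := Nat.lt_two_pow_self.le
  calc N.card * el i ≤ (2 ^ (m i + el i + 3) * 2 ^ (k + 3)) * 2 ^ el i :=
        Nat.mul_le_mul (h1.trans (Nat.mul_le_mul h2 (S.card_Ak k))) h3
    _ = 2 ^ (m (i + 1) + 3) * 2 ^ (k + 3) := by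
        rw [m_succ, s, ← pow_add, ← pow_add, ← pow_add]
        ring_nf
    _ ≤ 2 ^ (k + 1) * 2 ^ (k + 3) := by
        apply Nat.mul_le_mul_right
        exact Nat.pow_le_pow_right (by norm_num) (by omega)
    _ = 16 * 4 ^ k := by
        have : (4 : ℕ) ^ k = 2 ^ k * 2 ^ k := by
          rw [← mul_pow]
          norm_num
        rw [this]
        ring

theorem four_pow_eq (k : ℕ) : (4 : ℕ) ^ k = 2 ^ k * 2 ^ k := by
  rw [← mul_pow]
  norm_num

theorem pow_split {i k : ℕ} (hk : m (i + 1) + 2 ≤ k) : m i ≤ k := by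
  rw [m_succ] at hk
  omega

theorem n2 (i k : ℕ) (hk : m (i + 1) + 2 ≤ k) (N : Finset ℕ) (hN : ∀ n ∈ N, n < 4 ^ k ∧
    n < 16 * 4 ^ m (i + 2) ∧ ∃ a ∈ S.A, ∃ b ∈ S.A, a + b = n ∧ a ∈ S.Top i) :
    N.card * el i ≤ 96 * 4 ^ k := by
  let U : Bool → Finset ℕ := fun c =>
    (((S.P c (i + 1)).filter (fun p => S.th c (i + 1) p = 0) ∪
      (S.P c (i + 1)).filter (fun p => S.th c (i + 1) p = 1)) ×ˢ
      range (2 ^ (k - m (i + 1)))).image
      (fun x => x.1 + 4 ^ m (i + 1) * (S.aH c (i + 1) x.1 + co c * d x.2))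
  have hU : ∀ c, (U c).card ≤ 2 * (2 ^ m (i + 1) / el (i + 1) + 1) * 2 ^ (k - m (i + 1)) := by
    intro c
    refine card_image_le.trans ?_
    rw [card_product, card_range]
    apply Nat.mul_le_mul_right
    refine (card_union_le _ _).trans ?_
    have h1 := S.hfib c (i + 1) 0
    have h2 := S.hfib c (i + 1) 1
    omega
  have h1 : N.card ≤ (U true ∪ U false).card * (S.Ak k).card := by
    apply card_sums
    intro n hn
    obtain ⟨hnk, hn2, a, ha, b, hb, hab, c, hT⟩ := hN n hn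
    refine ⟨a, ?_, b, S.mem_Ak hb (by omega), hab⟩
    obtain ⟨p, hp, w, hae⟩ := S.El_succ hT
    have h2 : a ∈ U c := by
      refine mem_image.2 ⟨(p, w), ?_, hae.symm⟩
      have h3 := S.le_aH c (i + 1) p
      have h4 : 4 ^ m (i + 1) * 4 ^ (s (i + 1) + S.th c (i + 1) p) ≤ a := by
        rw [hae]
        refine le_trans (Nat.mul_le_mul_left _ ?_) (Nat.le_add_left _ _)
        omega
      have h5 : S.th c (i + 1) p < 2 := by
        by_contra hcon
        push Not at hcon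
        have h6 : 4 ^ (m (i + 2) + 2) ≤ 4 ^ m (i + 1) * 4 ^ (s (i + 1) + S.th c (i + 1) p) := by
          rw [← pow_add]
          apply Nat.pow_le_pow_right (by norm_num)
          rw [m_succ (i + 1)]
          omega
        rw [pow_add] at h6
        omega
      have h7 : w < 2 ^ (k - m (i + 1)) := by
        apply lt_of_d_lt
        have h8 : 4 ^ m (i + 1) * d w < 4 ^ m (i + 1) * 4 ^ (k - m (i + 1)) := by
          rw [← pow_add, Nat.add_sub_cancel' (by omega)]
          refine lt_of_le_of_lt ?_ (show a < 4 ^ k by omega)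
          rw [hae]
          refine le_trans (Nat.mul_le_mul_left _ ?_) (Nat.le_add_left _ _)
          have := co_pos c
          nlinarith
        exact Nat.lt_of_mul_lt_mul_left h8
      simp only [mem_product, mem_union, mem_filter, mem_range]
      refine ⟨?_, h7⟩
      have h9 : S.th c (i + 1) p = 0 ∨ S.th c (i + 1) p = 1 := by omega
      rcases h9 with h9 | h9
      · exact Or.inl ⟨hp, h9⟩
      · exact Or.inr ⟨hp, h9⟩
    cases c
    · exact mem_union_right _ h2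
    · exact mem_union_left _ h2
  have h2 : (U true ∪ U false).card
      ≤ 4 * ((2 ^ m (i + 1) / el (i + 1) + 1) * 2 ^ (k - m (i + 1))) := by
    refine (card_union_le _ _).trans ((Nat.add_le_add (hU true) (hU false)).trans (le_of_eq ?_))
    ring
  have h3 := fib_el (i + 1)
  have h4 := el_mono (show i ≤ i + 1 by omega)
  calc N.card * el i
      ≤ (4 * ((2 ^ m (i + 1) / el (i + 1) + 1) * 2 ^ (k - m (i + 1))) * 2 ^ (k + 3)) *
          el (i + 1) := Nat.mul_le_mul (h1.trans (Nat.mul_le_mul h2 (S.card_Ak k))) h4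
    _ = ((2 ^ m (i + 1) / el (i + 1) + 1) * el (i + 1)) *
          (4 * 2 ^ (k - m (i + 1)) * 2 ^ (k + 3)) := by ring
    _ ≤ (3 * 2 ^ m (i + 1)) * (4 * 2 ^ (k - m (i + 1)) * 2 ^ (k + 3)) :=
        Nat.mul_le_mul_right _ h3
    _ = 12 * (2 ^ m (i + 1) * 2 ^ (k - m (i + 1))) * 2 ^ (k + 3) := by ring
    _ = 96 * 4 ^ k := by
        rw [← pow_add, Nat.add_sub_cancel' (by omega), four_pow_eq]
        ring

theorem n3 (i k : ℕ) (hk : m (i + 1) + 2 ≤ k) (N : Finset ℕ) (hN : ∀ n ∈ N, n < 4 ^ k ∧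
    ∃ a b, a + b = n ∧ ∃ c, a ∈ S.Mid c i ∧ b ∈ S.Mid c i) :
    N.card * el i ≤ 8 * 4 ^ k := by
  let V : Bool × Bool × Bool → Finset ℕ := fun c =>
    ((S.P c.1 i ×ˢ S.P c.1 i) ×ˢ T (k - m i)).image
      (fun x => x.1.1 + x.1.2 + 4 ^ m i * (S.off c.1 i x.1.1 c.2.1 + S.off c.1 i x.1.2 c.2.2
        + co c.1 * x.2))
  have hV : ∀ c, (V c).card ≤ 4 ^ m i * 3 ^ (k - m i) := by
    intro c
    refine card_image_le.trans ?_
    rw [card_product, card_product, S.P_card, four_pow_eq]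
    exact Nat.mul_le_mul_left _ (card_T _)
  have h1 : N ⊆ (univ : Finset (Bool × Bool × Bool)).biUnion V := by
    intro n hn
    obtain ⟨hnk, a, b, hab, c, ⟨p, hp, w, σ, hae⟩, ⟨q, hq, w', τ, hbe⟩⟩ := hN n hn
    rw [mem_biUnion]
    refine ⟨(c, σ, τ), mem_univ _, mem_image.2 ⟨((p, q), d w + d w'), ?_, ?_⟩⟩
    · simp only [mem_product]
      refine ⟨⟨hp, hq⟩, mem_T _ _ _ ?_⟩
      have h8 : 4 ^ m i * (d w + d w') < 4 ^ m i * 4 ^ (k - m i) := by
        rw [← pow_add, Nat.add_sub_cancel' (pow_split hk)]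
        refine lt_of_le_of_lt ?_ hnk
        rw [← hab, hae, hbe]
        have h9 := co_pos c
        have h10 : 4 ^ m i * d w ≤ p + 4 ^ m i * (S.off c i p σ + co c * d w) := by
          refine le_trans (Nat.mul_le_mul_left _ ?_) (Nat.le_add_left _ _)
          nlinarith
        have h11 : 4 ^ m i * d w' ≤ q + 4 ^ m i * (S.off c i q τ + co c * d w') := by
          refine le_trans (Nat.mul_le_mul_left _ ?_) (Nat.le_add_left _ _)
          nlinarith
        rw [mul_add]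
        omega
      exact Nat.lt_of_mul_lt_mul_left h8
    · simp only
      rw [← hab, hae, hbe]
      ring
  have h2 : N.card ≤ 8 * (4 ^ m i * 3 ^ (k - m i)) := by
    refine (card_le_card h1).trans (card_biUnion_le.trans ?_)
    refine (sum_le_sum (fun c _ => hV c)).trans (le_of_eq ?_)
    rw [sum_const]
    simp
  have h3 : 3 ^ (k - m i) * el i ≤ 4 ^ (k - m i) := by
    have h4 : k - m i = (k - m i - s i) + s i := by
      rw [m_succ] at hk
      omega
    have h5 := nine_pow (el i)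
    rw [h4, pow_add, pow_add]
    have e1 : (3 : ℕ) ^ s i = 9 ^ el i := by
      rw [s, pow_mul]
      norm_num
    have e2 : (4 : ℕ) ^ s i = 16 ^ el i := by
      rw [s, pow_mul]
      norm_num
    rw [e1, e2]
    calc 3 ^ (k - m i - s i) * 9 ^ el i * el i = 3 ^ (k - m i - s i) * (el i * 9 ^ el i) := by
          ring
      _ ≤ 4 ^ (k - m i - s i) * 16 ^ el i :=
          Nat.mul_le_mul (Nat.pow_le_pow_left (by norm_num) _) h5
  calc N.card * el i ≤ 8 * (4 ^ m i * 3 ^ (k - m i)) * el i := Nat.mul_le_mul_right _ h2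
    _ = 8 * (4 ^ m i * (3 ^ (k - m i) * el i)) := by ring
    _ ≤ 8 * (4 ^ m i * 4 ^ (k - m i)) :=
        Nat.mul_le_mul_left _ (Nat.mul_le_mul_left _ h3)
    _ = 8 * 4 ^ k := by rw [← pow_add, Nat.add_sub_cancel' (pow_split hk)]

theorem n4 (i k : ℕ) (hk : m (i + 1) + 2 ≤ k) (N : Finset ℕ) (hN : ∀ n ∈ N, n < 4 ^ k ∧
    ∃ a ∈ S.A, ∃ b ∈ S.A, a + b = n ∧ ∃ c, a ∈ S.BadU c i n) :
    N.card * el i ≤ 48 * 4 ^ k := by
  let U : Bool → Finset ℕ := fun c => (range (k - m (i + 1) - 2)).biUnion fun h =>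
    ((S.P c i).filter (fun p => S.th c i p = h) ×ˢ range (2 ^ (s i + h + 2))).image
      (fun x => x.1 + 4 ^ m i * (S.kap c i x.1 + co c * d x.2))
  have hU : ∀ c, (U c).card ≤ (2 ^ m i / el i + 1) * 2 ^ (k - m i) := by
    intro c
    refine card_biUnion_le.trans ?_
    calc _ ≤ ∑ h ∈ range (k - m (i + 1) - 2), (2 ^ m i / el i + 1) * 2 ^ (s i + 2) * 2 ^ h := by
          apply sum_le_sum
          intro h _
          refine card_image_le.trans ?_
          rw [card_product, card_range]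
          refine (Nat.mul_le_mul_right _ (S.hfib c i h)).trans (le_of_eq ?_)
          have : s i + h + 2 = (s i + 2) + h := by ring
          rw [this, pow_add]
          ring
      _ = (2 ^ m i / el i + 1) * 2 ^ (s i + 2) * ∑ h ∈ range (k - m (i + 1) - 2), 2 ^ h := by
          rw [mul_sum]
      _ ≤ (2 ^ m i / el i + 1) * 2 ^ (s i + 2) * 2 ^ (k - m (i + 1) - 2) :=
          Nat.mul_le_mul_left _ (sum_two_pow _)
      _ = _ := by
          rw [mul_assoc, ← pow_add]
          congr 2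
          rw [m_succ] at hk ⊢
          omega
  have h1 : N.card ≤ (U true ∪ U false).card * (S.Ak k).card := by
    apply card_sums
    intro n hn
    obtain ⟨hnk, a, ha, b, hb, hab, c, p, hp, u, hu, hae, hth⟩ := hN n hn
    refine ⟨a, ?_, b, S.mem_Ak hb (by omega), hab⟩
    have h2 : a ∈ U c := by
      refine mem_biUnion.2 ⟨S.th c i p, ?_, mem_image.2 ⟨(p, u), ?_, hae.symm⟩⟩
      · rw [mem_range]
        have h3 : 4 ^ (S.th c i p + m (i + 1) + 2) < 4 ^ k := by
          rw [pow_add]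
          omega
        have := (Nat.pow_lt_pow_iff_right (by norm_num : 1 < 4)).1 h3
        omega
      · simp only [mem_product, mem_filter, mem_range]
        exact ⟨⟨hp, trivial⟩, hu⟩
    cases c
    · exact mem_union_right _ h2
    · exact mem_union_left _ h2
  have h2 : (U true ∪ U false).card ≤ 2 * ((2 ^ m i / el i + 1) * 2 ^ (k - m i)) := by
    refine (card_union_le _ _).trans ((Nat.add_le_add (hU true) (hU false)).trans (le_of_eq ?_))
    ring
  have h3 := fib_el i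
  calc N.card * el i
      ≤ (2 * ((2 ^ m i / el i + 1) * 2 ^ (k - m i)) * 2 ^ (k + 3)) * el i :=
        Nat.mul_le_mul_right _ (h1.trans (Nat.mul_le_mul h2 (S.card_Ak k)))
    _ = ((2 ^ m i / el i + 1) * el i) * (2 * 2 ^ (k - m i) * 2 ^ (k + 3)) := by ring
    _ ≤ (3 * 2 ^ m i) * (2 * 2 ^ (k - m i) * 2 ^ (k + 3)) := Nat.mul_le_mul_right _ h3
    _ = 6 * (2 ^ m i * 2 ^ (k - m i)) * 2 ^ (k + 3) := by ring
    _ = 48 * 4 ^ k := by
        rw [← pow_add, Nat.add_sub_cancel' (pow_split hk), four_pow_eq]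
        ring

theorem n5 (i k : ℕ) (hk : m (i + 1) + 2 ≤ k) (N : Finset ℕ) (hN : ∀ n ∈ N, n < 4 ^ k ∧
    ∃ a ∈ S.A, ∃ b ∈ S.A, a + b = n ∧ ∃ c, a ∈ S.BadH c i n) :
    N.card * el i ≤ 768 * 4 ^ k := by
  let U : Bool → ℕ → Finset ℕ := fun c h =>
    ((S.P c i).filter (fun p => S.th c i p = h) ×ˢ range (2 ^ (h + s i + 2))).image
      (fun x => x.1 + 4 ^ m i * (S.aH c i x.1 + co c * d x.2))
  have hU : ∀ c h, (U c h).card ≤ (2 ^ m i / el i + 1) * 2 ^ (h + s i + 2) := by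
    intro c h
    refine card_image_le.trans ?_
    rw [card_product, card_range]
    exact Nat.mul_le_mul_right _ (S.hfib c i h)
  let V : Bool → ℕ → Finset ℕ := fun c h =>
    (U c h ×ˢ S.Ak (h + m (i + 1) + 2)).image (fun x => x.1 + x.2)
  have hV : ∀ c h, (V c h).card
      ≤ (2 ^ m i / el i + 1) * 2 ^ (s i + m (i + 1) + 7) * 4 ^ h := by
    intro c h
    refine card_image_le.trans ?_
    rw [card_product]
    refine (Nat.mul_le_mul (hU c h) (S.card_Ak _)).trans (le_of_eq ?_)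
    rw [four_pow_eq, mul_assoc, mul_assoc, ← pow_add, ← pow_add, ← pow_add]
    ring_nf
  have h1 : N ⊆ (range (k - m (i + 1))).biUnion fun h => V true h ∪ V false h := by
    intro n hn
    obtain ⟨hnk, a, ha, b, hb, hab, c, p, hp, w, hae, hth⟩ := hN n hn
    rw [mem_biUnion]
    have hlow : 4 ^ (m (i + 1) + S.th c i p) ≤ a := by
      have h3 := S.le_aH c i p
      have e : 4 ^ (m (i + 1) + S.th c i p) = 4 ^ m i * 4 ^ (s i + S.th c i p) := by
        rw [m_succ, ← pow_add]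
        congr 1
        ring
      rw [hae, e]
      refine le_trans (Nat.mul_le_mul_left _ ?_) (Nat.le_add_left _ _)
      omega
    refine ⟨S.th c i p, ?_, ?_⟩
    · rw [mem_range]
      have h3 : 4 ^ (m (i + 1) + S.th c i p) < 4 ^ k := by omega
      have := (Nat.pow_lt_pow_iff_right (by norm_num : 1 < 4)).1 h3
      omega
    · have hn4 : n < 4 ^ (S.th c i p + m (i + 1) + 2) := by
        rw [pow_add]
        omega
      have h2 : n ∈ V c (S.th c i p) := by
        refine mem_image.2 ⟨(a, b), mem_product.2 ⟨?_, S.mem_Ak hb (by omega)⟩, hab⟩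
        refine mem_image.2 ⟨(p, w), ?_, hae.symm⟩
        simp only [mem_product, mem_filter, mem_range]
        refine ⟨⟨hp, trivial⟩, ?_⟩
        apply lt_of_d_lt
        have h8 : 4 ^ m i * d w < 4 ^ m i * 4 ^ (S.th c i p + s i + 2) := by
          rw [← pow_add]
          have e : m i + (S.th c i p + s i + 2) = S.th c i p + m (i + 1) + 2 := by
            rw [m_succ]
            ring
          rw [e]
          refine lt_of_le_of_lt ?_ (show a < 4 ^ (S.th c i p + m (i + 1) + 2) by omega)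
          rw [hae]
          refine le_trans (Nat.mul_le_mul_left _ ?_) (Nat.le_add_left _ _)
          have := co_pos c
          nlinarith
        exact Nat.lt_of_mul_lt_mul_left h8
      cases c
      · exact mem_union_right _ h2
      · exact mem_union_left _ h2
  have h2 : N.card ≤ (2 ^ m i / el i + 1) * 2 ^ (s i + m (i + 1) + 8) * 4 ^ (k - m (i + 1)) := by
    refine (card_le_card h1).trans (card_biUnion_le.trans ?_)
    calc _ ≤ ∑ h ∈ range (k - m (i + 1)),
          (2 ^ m i / el i + 1) * 2 ^ (s i + m (i + 1) + 8) * 4 ^ h := by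
          apply sum_le_sum
          intro h _
          refine (card_union_le _ _).trans ((Nat.add_le_add (hV _ _) (hV _ _)).trans
            (le_of_eq ?_))
          rw [pow_succ 2 (s i + m (i + 1) + 7)]
          ring
      _ = (2 ^ m i / el i + 1) * 2 ^ (s i + m (i + 1) + 8) *
          ∑ h ∈ range (k - m (i + 1)), 4 ^ h := by rw [mul_sum]
      _ ≤ _ := Nat.mul_le_mul_left _ (sum_four_pow _)
  have h3 := fib_el i
  calc N.card * el i
      ≤ ((2 ^ m i / el i + 1) * 2 ^ (s i + m (i + 1) + 8) * 4 ^ (k - m (i + 1))) * el i :=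
        Nat.mul_le_mul_right _ h2
    _ = ((2 ^ m i / el i + 1) * el i) * (2 ^ (s i + m (i + 1) + 8) * 4 ^ (k - m (i + 1))) := by
        ring
    _ ≤ (3 * 2 ^ m i) * (2 ^ (s i + m (i + 1) + 8) * 4 ^ (k - m (i + 1))) :=
        Nat.mul_le_mul_right _ h3
    _ = 768 * (4 ^ m (i + 1) * 4 ^ (k - m (i + 1))) := by
        rw [four_pow_eq (m (i + 1))]
        have e : 2 ^ (s i + m (i + 1) + 8) = 256 * 2 ^ s i * 2 ^ m (i + 1) := by
          rw [pow_add, pow_add]
          norm_num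
          ring
        rw [e]
        have e2 : 2 ^ m (i + 1) = 2 ^ m i * 2 ^ s i := by rw [m_succ, pow_add]
        rw [e2]
        ring
    _ = 768 * 4 ^ k := by rw [← pow_add, Nat.add_sub_cancel' (by omega)]

theorem n6 (i k : ℕ) (hk : m (i + 1) + 2 ≤ k) (N : Finset ℕ) (hN : ∀ n ∈ N, n < 4 ^ k ∧
    ∃ a ∈ S.A, a + a = n) : N.card * el i ≤ 8 * 4 ^ k := by
  have h1 : N ⊆ (S.Ak k).image (fun a => a + a) := by
    intro n hn
    obtain ⟨hnk, a, ha, hab⟩ := hN n hn
    exact mem_image.2 ⟨a, S.mem_Ak ha (by omega), hab⟩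
  have h2 : N.card ≤ 2 ^ (k + 3) := (card_le_card h1).trans (card_image_le.trans (S.card_Ak k))
  have h3 : el i ≤ 2 ^ k := by
    refine Nat.lt_two_pow_self.le.trans (Nat.pow_le_pow_right (by norm_num) ?_)
    rw [m_succ, s] at hk
    omega
  calc N.card * el i ≤ 2 ^ (k + 3) * 2 ^ k := Nat.mul_le_mul h2 h3
    _ = 8 * 4 ^ k := by
        rw [four_pow_eq]
        ring

/-- exceptions in one block -/
theorem block (i k : ℕ) (hk : m (i + 1) + 2 ≤ k) :
    ((range (4 ^ k)).filter (fun n => 16 * 4 ^ m (i + 1) ≤ n ∧ n < 16 * 4 ^ m (i + 2) ∧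
      rep S.A n ≠ 2)).card * el i ≤ 944 * 4 ^ k := by
  set N := (range (4 ^ k)).filter (fun n => 16 * 4 ^ m (i + 1) ≤ n ∧ n < 16 * 4 ^ m (i + 2) ∧
      rep S.A n ≠ 2) with hN
  have hNm : ∀ n ∈ N, n < 4 ^ k ∧ n < 16 * 4 ^ m (i + 2) ∧ S.Exc i n := by
    intro n hn
    rw [hN, mem_filter, mem_range] at hn
    refine ⟨hn.1, hn.2.2.1, ?_⟩
    by_contra hcon
    exact hn.2.2.2 (S.rep_eq_two hn.2.1 hn.2.2.1 hcon)
  let N1 := N.filter (fun n => ∃ a ∈ S.A, ∃ b ∈ S.A, a + b = n ∧ a ∈ S.Low i)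
  let N2 := N.filter (fun n => ∃ a ∈ S.A, ∃ b ∈ S.A, a + b = n ∧ a ∈ S.Top i)
  let N3 := N.filter (fun n => ∃ a b, a + b = n ∧ ∃ c, a ∈ S.Mid c i ∧ b ∈ S.Mid c i)
  let N4 := N.filter (fun n => ∃ a ∈ S.A, ∃ b ∈ S.A, a + b = n ∧ ∃ c, a ∈ S.BadU c i n)
  let N5 := N.filter (fun n => ∃ a ∈ S.A, ∃ b ∈ S.A, a + b = n ∧ ∃ c, a ∈ S.BadH c i n)
  let N6 := N.filter (fun n => ∃ a ∈ S.A, a + a = n)
  have hsub : N ⊆ N1 ∪ (N2 ∪ (N3 ∪ (N4 ∪ (N5 ∪ N6)))) := by
    intro n hn
    obtain ⟨_, _, a, ha, b, hb, hab, h⟩ := hNm n hn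
    simp only [N1, N2, N3, N4, N5, N6, mem_union, mem_filter, hn, true_and]
    rcases h with h | h | h | h | h | h
    · exact Or.inl ⟨a, ha, b, hb, hab, h⟩
    · exact Or.inr (Or.inl ⟨a, ha, b, hb, hab, h⟩)
    · exact Or.inr (Or.inr (Or.inr (Or.inl ⟨a, ha, b, hb, hab, h⟩)))
    · exact Or.inr (Or.inr (Or.inr (Or.inr (Or.inl ⟨a, ha, b, hb, hab, h⟩))))
    · exact Or.inr (Or.inr (Or.inl ⟨a, b, hab, h⟩))
    · subst h
      exact Or.inr (Or.inr (Or.inr (Or.inr (Or.inr ⟨a, ha, hab⟩))))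
  have hcard : N.card ≤ N1.card + (N2.card + (N3.card + (N4.card + (N5.card + N6.card)))) := by
    refine (card_le_card hsub).trans ?_
    refine (card_union_le _ _).trans (Nat.add_le_add_left ?_ _)
    refine (card_union_le _ _).trans (Nat.add_le_add_left ?_ _)
    refine (card_union_le _ _).trans (Nat.add_le_add_left ?_ _)
    refine (card_union_le _ _).trans (Nat.add_le_add_left ?_ _)
    exact card_union_le _ _
  have e1 := S.n1 i k hk N1 (fun n hn => by
    rw [mem_filter] at hn; exact ⟨(hNm n hn.1).1, hn.2⟩)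
  have e2 := S.n2 i k hk N2 (fun n hn => by
    rw [mem_filter] at hn; exact ⟨(hNm n hn.1).1, (hNm n hn.1).2.1, hn.2⟩)
  have e3 := S.n3 i k hk N3 (fun n hn => by
    rw [mem_filter] at hn; exact ⟨(hNm n hn.1).1, hn.2⟩)
  have e4 := S.n4 i k hk N4 (fun n hn => by
    rw [mem_filter] at hn; exact ⟨(hNm n hn.1).1, hn.2⟩)
  have e5 := S.n5 i k hk N5 (fun n hn => by
    rw [mem_filter] at hn; exact ⟨(hNm n hn.1).1, hn.2⟩)
  have e6 := S.n6 i k hk N6 (fun n hn => by
    rw [mem_filter] at hn; exact ⟨(hNm n hn.1).1, hn.2⟩)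
  calc N.card * el i
      ≤ (N1.card + (N2.card + (N3.card + (N4.card + (N5.card + N6.card))))) * el i :=
        Nat.mul_le_mul_right _ hcard
    _ = N1.card * el i + (N2.card * el i + (N3.card * el i + (N4.card * el i +
          (N5.card * el i + N6.card * el i)))) := by ring
    _ ≤ 944 * 4 ^ k := by omega

end counting

end Sys

end Pool.Agent.Y940.HB
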