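import Mathlib
import Pool.Agent.Y940.HB.Exc
/-!
# The final bounds
-/

set_option autoImplicit false

open Finset

namespace Pool.Agent.Y940.HB

theorem exists_index (n : ℕ) (i₀ : ℕ) (hn : 16 * 4 ^ m (i₀ + 1) ≤ n) :
    ∃ i, i₀ ≤ i ∧ 16 * 4 ^ m (i + 1) ≤ n ∧ n < 16 * 4 ^ m (i + 2) := by
  classical
  have hex : ∃ j, n < 16 * 4 ^ m (j + 2) := by
    refine ⟨n, ?_⟩
    have h1 := m_ge (n + 2)
    have h2 : n < 4 ^ n := Nat.lt_pow_self (by norm_num)
    have h3 : 4 ^ n ≤ 4 ^ m (n + 2) := Nat.pow_le_pow_right (by norm_num) (by omega)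
    omega
  have h1 := Nat.find_spec hex
  set i := Nat.find hex with hi
  have h0 : i₀ ≤ i := by
    by_contra hcon
    push Not at hcon
    have h2 : 4 ^ m (i + 2) ≤ 4 ^ m (i₀ + 1) :=
      Nat.pow_le_pow_right (by norm_num) (m_mono (by omega))
    omega
  refine ⟨i, h0, ?_, h1⟩
  rcases Nat.eq_or_lt_of_le h0 with h | h
  · rw [← h]
    exact hn
  · have h2 := Nat.find_min hex (m := i - 1) (by omega)
    have h3 : i - 1 + 2 = i + 1 := by omega
    rw [h3] at h2
    omega

namespace Sys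

variable (S : Sys)

theorem rep_pos_of_ge (n : ℕ) (hn : 4096 ≤ n) : 1 ≤ rep S.A n := by
  have h1 : 16 * 4 ^ m (0 + 1) ≤ n := by
    have : m (0 + 1) = 4 := by
      rw [m_succ]
      simp [m, s, el]
    rw [this]
    omega
  obtain ⟨i, _, h2, h3⟩ := exists_index n 0 h1
  exact S.rep_pos h2 h3

section counting

open scoped Classical

theorem thin_sqrt (x : ℕ) (hx : 1 ≤ x) :
    (((Icc 0 x).filter (fun a => a ∈ S.A)).card : ℝ) ≤ 16 * Real.sqrt x := by
  set k := Nat.log 4 x + 1 with hk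
  have h1 : x < 4 ^ k := Nat.lt_pow_succ_log_self (by norm_num) x
  have h2 : 4 ^ Nat.log 4 x ≤ x := Nat.pow_log_le_self 4 (by omega)
  have h3 : ((Icc 0 x).filter (fun a => a ∈ S.A)).card ≤ 2 ^ (k + 3) := by
    refine le_trans (card_le_card ?_) (S.thin k)
    intro a ha
    rw [mem_filter, mem_Icc] at ha
    rw [mem_filter, mem_range]
    exact ⟨by omega, ha.2⟩
  have h4 : (2 : ℝ) ^ Nat.log 4 x ≤ Real.sqrt x := by
    apply Real.le_sqrt_of_sq_le
    have : ((2 : ℝ) ^ Nat.log 4 x) ^ 2 = 4 ^ Nat.log 4 x := by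
      rw [← pow_mul, mul_comm, pow_mul]
      norm_num
    rw [this]
    exact_mod_cast h2
  have h5 : (((Icc 0 x).filter (fun a => a ∈ S.A)).card : ℝ) ≤ 2 ^ (k + 3) := by
    exact_mod_cast h3
  refine h5.trans ?_
  have : (2 : ℝ) ^ (k + 3) = 16 * 2 ^ Nat.log 4 x := by
    rw [hk, pow_add, pow_add]
    norm_num
    ring
  rw [this]
  linarith

theorem exc_nat (i x : ℕ) (hi : 1 ≤ i) (h1 : 16 * 4 ^ m (i + 1) ≤ x)
    (h2 : x < 16 * 4 ^ m (i + 2)) :
    ((Icc 1 x).filter (fun n => rep S.A n ≠ 2)).card * el (i - 1) ≤ 4721 * x := by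
  set k := Nat.log 4 x + 1 with hk
  have hx : 1 ≤ x := by
    have : 0 < 4 ^ m (i + 1) := by positivity
    omega
  have hk1 : x < 4 ^ k := Nat.lt_pow_succ_log_self (by norm_num) x
  have hk2 : 4 ^ Nat.log 4 x ≤ x := Nat.pow_log_le_self 4 (by omega)
  have hk3 : m (i + 1) + 2 ≤ k := by
    have h3 : 4 ^ (m (i + 1) + 2) ≤ x := by
      rw [pow_add]
      omega
    have := (Nat.le_log_iff_pow_le (by norm_num : 1 < 4) (by omega)).2 h3
    omega
  let N0 := range (16 * 4 ^ m i)
  let N1 := (range (4 ^ (m (i + 1) + 2))).filter (fun n => 16 * 4 ^ m (i - 1 + 1) ≤ n ∧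
    n < 16 * 4 ^ m (i - 1 + 2) ∧ rep S.A n ≠ 2)
  let N2 := (range (4 ^ k)).filter (fun n => 16 * 4 ^ m (i + 1) ≤ n ∧
    n < 16 * 4 ^ m (i + 2) ∧ rep S.A n ≠ 2)
  have hsub : (Icc 1 x).filter (fun n => rep S.A n ≠ 2) ⊆ N0 ∪ (N1 ∪ N2) := by
    intro n hn
    rw [mem_filter, mem_Icc] at hn
    simp only [N0, N1, N2, mem_union, mem_filter, mem_range]
    have e1 : i - 1 + 1 = i := by omega
    have e2 : i - 1 + 2 = i + 1 := by omega
    rw [e1, e2]
    rcases Nat.lt_or_ge n (16 * 4 ^ m i) with h3 | h3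
    · exact Or.inl h3
    · rcases Nat.lt_or_ge n (16 * 4 ^ m (i + 1)) with h4 | h4
      · refine Or.inr (Or.inl ⟨?_, h3, h4, hn.2⟩)
        rw [pow_add]
        omega
      · exact Or.inr (Or.inr ⟨by omega, h4, by omega, hn.2⟩)
  have hcard := (card_le_card hsub).trans ((card_union_le _ _).trans
    (Nat.add_le_add_left (card_union_le _ _) _))
  have hb1 := S.block (i - 1) (m (i + 1) + 2) (by
    have e1 : i - 1 + 1 = i := by omega
    rw [e1]
    have := m_mono (show i ≤ i + 1 by omega)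
    omega)
  have hb2 := S.block i k hk3
  have hel : el (i - 1) ≤ el i := el_mono (by omega)
  have hel2 : el (i - 1) ≤ 4 ^ s i := by
    refine hel.trans ?_
    have h3 : el i < 2 ^ el i := Nat.lt_two_pow_self
    have h4 : 2 ^ el i ≤ 4 ^ el i := Nat.pow_le_pow_left (by norm_num) _
    have h5 : 4 ^ el i ≤ 4 ^ s i := Nat.pow_le_pow_right (by norm_num) (by unfold s; omega)
    omega
  have hN0 : N0.card * el (i - 1) ≤ x := by
    simp only [N0, card_range]
    calc 16 * 4 ^ m i * el (i - 1) ≤ 16 * 4 ^ m i * 4 ^ s i := Nat.mul_le_mul_left _ hel2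
      _ = 16 * 4 ^ m (i + 1) := by
          rw [m_succ, pow_add]
          ring
      _ ≤ x := h1
  have hN1 : N1.card * el (i - 1) ≤ 944 * x := by
    refine hb1.trans (Nat.mul_le_mul_left _ ?_)
    rw [pow_add]
    omega
  have hN2 : N2.card * el (i - 1) ≤ 3776 * x := by
    refine (Nat.mul_le_mul_left _ hel).trans (hb2.trans ?_)
    have : 4 ^ k = 4 * 4 ^ Nat.log 4 x := by
      rw [hk, pow_succ]
      ring
    omega
  calc ((Icc 1 x).filter (fun n => rep S.A n ≠ 2)).card * el (i - 1)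
      ≤ (N0.card + (N1.card + N2.card)) * el (i - 1) := Nat.mul_le_mul_right _ hcard
    _ = N0.card * el (i - 1) + (N1.card * el (i - 1) + N2.card * el (i - 1)) := by ring
    _ ≤ 4721 * x := by omega

theorem loglog_le (i x : ℕ) (hi : 1 ≤ i) (h1 : 16 * 4 ^ m (i + 1) ≤ x)
    (h2 : x < 16 * 4 ^ m (i + 2)) : Real.log (Real.log x) ≤ 14 * (el (i - 1) : ℝ) := by
  have hx : 16 ≤ x := by
    have : 0 < 4 ^ m (i + 1) := by positivity
    omega
  have hx0 : (0 : ℝ) < x := by exact_mod_cast (by omega : 0 < x)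
  have hlog2 : Real.log 2 < 0.6932 := by have := Real.log_two_lt_d9; linarith
  have hlog2' : (0 : ℝ) < Real.log 2 := Real.log_pos (by norm_num)
  have h3 : Real.log x ≤ (m (i + 2) + 2 : ℕ) * (2 * Real.log 2) := by
    have h4 : (x : ℝ) ≤ 4 ^ (m (i + 2) + 2) := by
      have : x ≤ 4 ^ (m (i + 2) + 2) := by
        rw [pow_add]
        omega
      exact_mod_cast this
    have h5 := Real.log_le_log hx0 h4
    rw [Real.log_pow] at h5
    have h7 : Real.log 4 = 2 * Real.log 2 := by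
      have : (4 : ℝ) = 2 ^ 2 := by norm_num
      rw [this, Real.log_pow]
      norm_num
    rwa [h7] at h5
  have h4 : m (i + 2) + 2 ≤ 32 * i ^ 2 := by
    have h5 := m_le (i + 2)
    have h6 := el_le (i + 2)
    have h7 : 2 * (i + 2) * el (i + 2) ≤ 2 * (i + 2) * (i + 4) := Nat.mul_le_mul_left _ h6
    nlinarith
  have h5 : i < 256 ^ (el (i - 1)) := by
    have h6 : i - 1 + 1 = i := by omega
    have h7 : el (i - 1) = Nat.log 256 i + 2 := by
      unfold el
      rw [h6]
    rw [h7]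
    refine (Nat.lt_pow_succ_log_self (b := 256) (by norm_num) i).trans_le ?_
    exact Nat.pow_le_pow_right (by norm_num) (by omega)
  have h6 : Real.log x ≤ 64 * ((256 : ℝ) ^ el (i - 1)) ^ 2 := by
    have h7 : (i : ℝ) ≤ 256 ^ (el (i - 1)) := by exact_mod_cast h5.le
    have h8 : ((m (i + 2) + 2 : ℕ) : ℝ) ≤ 32 * (i : ℝ) ^ 2 := by exact_mod_cast h4
    have h9 : (i : ℝ) ^ 2 ≤ ((256 : ℝ) ^ el (i - 1)) ^ 2 := by gcongr
    have h10 : (0 : ℝ) ≤ ((m (i + 2) + 2 : ℕ) : ℝ) := Nat.cast_nonneg _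
    nlinarith
  have h7 : 0 < Real.log x := Real.log_pos (by exact_mod_cast (by omega : 1 < x))
  have h8 := Real.log_le_log h7 h6
  rw [Real.log_mul (by norm_num) (by positivity), Real.log_pow, Real.log_pow] at h8
  have h9 : Real.log 64 = 6 * Real.log 2 := by
    have : (64 : ℝ) = 2 ^ 6 := by norm_num
    rw [this, Real.log_pow]
    norm_num
  have h10 : Real.log 256 = 8 * Real.log 2 := by
    have : (256 : ℝ) = 2 ^ 8 := by norm_num
    rw [this, Real.log_pow]
    norm_num
  rw [h9, h10] at h8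
  have h11 : (2 : ℝ) ≤ el (i - 1) := by exact_mod_cast el_ge (i - 1)
  push_cast at h8
  nlinarith

theorem exceptions : ∃ C : ℝ, ∀ x : ℕ, 16 ≤ x →
    (((Icc 1 x).filter (fun n => rep S.A n ≠ 2)).card : ℝ) ≤
      C * (x / Real.log (Real.log x)) := by
  set X0 : ℕ := 16 * 4 ^ m (1 + 1) with hX0
  refine ⟨66094 + Real.log (Real.log X0), ?_⟩
  intro x hx
  have hx1 : (0 : ℝ) < Real.log (Real.log x) := by
    apply Real.log_pos
    have h1 : Real.log 16 ≤ Real.log x := Real.log_le_log (by norm_num) (by exact_mod_cast hx)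
    have h9 : Real.log 16 = 4 * Real.log 2 := by
      have : (16 : ℝ) = 2 ^ 4 := by norm_num
      rw [this, Real.log_pow]
      norm_num
    have := Real.log_two_gt_d9
    linarith
  have hX : (0 : ℝ) < Real.log (Real.log X0) := by
    apply Real.log_pos
    have h0 : 16 ≤ X0 := by
      have : 0 < 4 ^ m (1 + 1) := by positivity
      omega
    have h1 : Real.log 16 ≤ Real.log X0 := Real.log_le_log (by norm_num) (by exact_mod_cast h0)
    have h9 : Real.log 16 = 4 * Real.log 2 := by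
      have : (16 : ℝ) = 2 ^ 4 := by norm_num
      rw [this, Real.log_pow]
      norm_num
    have := Real.log_two_gt_d9
    linarith
  rw [← mul_div_assoc, le_div_iff₀ hx1]
  rcases Nat.lt_or_ge x X0 with h | h
  · have h1 : (((Icc 1 x).filter (fun n => rep S.A n ≠ 2)).card : ℝ) ≤ x := by
      have : ((Icc 1 x).filter (fun n => rep S.A n ≠ 2)).card ≤ x := by
        refine (card_filter_le _ _).trans ?_
        simp
      exact_mod_cast this
    have h2 : Real.log (Real.log x) ≤ Real.log (Real.log X0) := by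
      have h3 : (1 : ℝ) < x := by exact_mod_cast (by omega : 1 < x)
      apply Real.log_le_log (Real.log_pos h3)
      apply Real.log_le_log (by linarith)
      exact_mod_cast h.le
    have h3 : (0 : ℝ) ≤ x := Nat.cast_nonneg x
    have h4 : (((Icc 1 x).filter (fun n => rep S.A n ≠ 2)).card : ℝ) * Real.log (Real.log x)
        ≤ x * Real.log (Real.log X0) := mul_le_mul h1 h2 hx1.le h3
    nlinarith
  · obtain ⟨i, hi, h1, h2⟩ := exists_index x 1 h
    have h3 := S.exc_nat i x hi h1 h2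
    have h4 := loglog_le i x hi h1 h2
    have h5 : (((Icc 1 x).filter (fun n => rep S.A n ≠ 2)).card : ℝ) * (el (i - 1) : ℝ)
        ≤ 4721 * x := by exact_mod_cast h3
    have h6 : (0 : ℝ) ≤ (((Icc 1 x).filter (fun n => rep S.A n ≠ 2)).card : ℝ) :=
      Nat.cast_nonneg _
    have h7 : (0 : ℝ) ≤ x := Nat.cast_nonneg x
    nlinarith [mul_le_mul_of_nonneg_left h4 h6, mul_nonneg hX.le h7]

end counting

end Sys

end Pool.Agent.Y940.HB
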